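import Pool.Agent.W717.UR.Stm

set_option autoImplicit false

namespace Pool.Agent.W717.UR

open Filter Topology

theorem rad_mono {y : ℤ → ℤ} {x : ℕ → ℤ} {R : ℕ → ℕ} (h : Rad y x R) : Monotone R :=
  monotone_nat_of_le_succ fun i => by have := h.growth i; omega

theorem rad_add {y : ℤ → ℤ} {x : ℕ → ℤ} {R : ℕ → ℕ} (h : Rad y x R) (i m : ℕ) (hi : i < m) :
    R i + 100 * (m + 1) ≤ R m := by
  obtain ⟨m', rfl⟩ : ∃ m', m = m' + 1 := ⟨m - 1, by omega⟩
  have h1 := h.growth m'
  have h2 := rad_mono h (show i ≤ m' by omega)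
  omega

theorem good_cyl (hA : S_ADM) {y : ℤ → ℤ} {x : ℕ → ℤ} {R : ℕ → ℕ} (hR : Rad y x R) {l : ℕ}
    {g : ℤ → ℝ} (hg : Cyl y l g) : Good (fun i => Ret y (R i)) g := by
  refine ⟨l, 1, one_pos, ?_⟩
  have : (fun n => g n / 1) = g := by
    funext n
    rw [div_one]
  rw [this]
  exact hA y x R hR l g hg l le_rfl

theorem atm (hA : S_ADM) : S_ATM := by
  classical
  intro y x R hR L V z a hL hV hT ha hM j
  set T : Set ℝ := {v | ∃ (l' : ℕ) (g : ℤ → ℝ), Cyl y l' g ∧ v = L g} with hTdef
  have hTb : BddAbove T := by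
    refine ⟨V, ?_⟩
    rintro v ⟨l', g, hg, rfl⟩
    exact (abs_le.1 (hV l' g hg)).2
  have hTn : T.Nonempty := by
    refine ⟨L fun _ => 0, 0, fun _ => 0, ⟨fun n => ?_, fun _ _ _ => rfl⟩, rfl⟩
    rw [abs_zero]
    exact zero_le_one
  obtain ⟨v, ⟨l0, g0, hg0, rfl⟩, hv⟩ := exists_lt_of_lt_csSup hTn
    (show sSup T - a / 8 < sSup T by linarith)
  obtain ⟨m1, hm1⟩ := hT (max j l0) (a / 8) (by positivity)
  set Bs : Set ℤ := {n | ∀ m : ℕ, m ≤ m1 → n - m ∉ Ret y (R (m + j))} with hBs
  -- window transfer for return sets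
  have htr : ∀ (n n' : ℤ) (m : ℕ) (r : ℕ), (∀ i : ℤ, |i| ≤ (m + r : ℕ) → y (n + i) = y (n' + i)) →
      n - m ∈ Ret y r → n' - m ∈ Ret y r := by
    intro n n' m r hw hn c hc
    have h1 := hn c hc
    have h2 := hw (c - m) (by rw [abs_le] at hc ⊢; push_cast; omega)
    rw [← h1]
    rw [show n' - (m : ℤ) + c = n' + (c - m) by ring, show n - (m : ℤ) + c = n + (c - m) by ring]
    exact h2.symm
  have hBcyl : ∀ n n' : ℤ, (∀ i : ℤ, |i| ≤ (m1 + R (m1 + j) : ℕ) → y (n + i) = y (n' + i)) →
      (n ∈ Bs ↔ n' ∈ Bs) := by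
    have key : ∀ n n' : ℤ, (∀ i : ℤ, |i| ≤ (m1 + R (m1 + j) : ℕ) → y (n + i) = y (n' + i)) →
        n ∈ Bs → n' ∈ Bs := by
      intro n n' hw hn m hm hmem
      apply hn m hm
      refine htr n' n m (R (m + j)) (fun i hi => (hw i ?_).symm) hmem
      refine hi.trans ?_
      have := rad_mono hR (show m + j ≤ m1 + j by omega)
      exact_mod_cast (by omega : m + R (m + j) ≤ m1 + R (m1 + j))
    intro n n' hw
    exact ⟨key n n' hw, key n' n (fun i hi => (hw i hi).symm)⟩
  -- the part of g0 on Bs
  have hG1 : Adm (fun i => Ret y (R i)) (max j l0) (fun n => if n ∈ Bs then g0 n else 0) := by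
    refine ⟨fun n => ?_, fun m n hmn => ?_⟩
    · show |if n ∈ Bs then g0 n else 0| ≤ 1
      split_ifs
      · exact hg0.1 n
      · simp
    · have hg := (hA y x R hR l0 g0 hg0 (max j l0) (le_max_right _ _)).2 m n hmn
      have hB : (n : ℤ) ∈ Bs ↔ (m : ℤ) ∈ Bs := by
        by_cases hm : m ≤ m1
        · constructor
          · intro h1
            exfalso
            apply h1 m hm
            intro c hc
            apply hmn c
            refine hc.trans ?_
            have := rad_mono hR (show m + j ≤ m + max j l0 by omega)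
            exact_mod_cast this
          · intro h1
            exfalso
            apply h1 m hm
            rw [sub_self]
            intro c _
            rw [zero_add]
        · push Not at hm
          have hw : ∀ i : ℤ, |i| ≤ (m1 + R (m1 + j) : ℕ) → y ((n : ℤ) + i) = y ((m : ℤ) + i) := by
            intro i hi
            have h1 := hmn (m + i) (by
              have h2 := rad_add hR (m1 + j) (m + max j l0) (by omega)
              rw [abs_le] at hi ⊢
              push_cast at hi
              have h3 : ((R (m1 + j) : ℕ) : ℤ) + 100 * ((m : ℤ) + 1) ≤ (R (m + max j l0) : ℕ) := by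
                have : R (m1 + j) + 100 * (m + 1) ≤ R (m + max j l0) := by omega
                exact_mod_cast this
              have h4 : (m1 : ℤ) < m := by exact_mod_cast hm
              constructor <;> linarith [hi.1, hi.2])
            rw [← h1]
            congr 1
            ring
          exact hBcyl n m hw
      show (if (n : ℤ) ∈ Bs then g0 n else 0) = (if (m : ℤ) ∈ Bs then g0 m else 0)
      simp only [hB, hg]
  have hG10 : ∀ n : ℕ, n ≤ m1 → (fun n : ℤ => if n ∈ Bs then g0 n else 0) n = 0 := by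
    intro n hn
    show (if (n : ℤ) ∈ Bs then g0 n else 0) = 0
    rw [if_neg]
    intro h1
    apply h1 n hn
    rw [sub_self]
    intro c _
    rw [zero_add]
  have h3 := hm1 _ hG1 hG10
  obtain ⟨l'', h, hh, hsupp, hLh⟩ := hM (R (m1 + j) + 1) (a / 2) (by linarith)
  have hex : ∃ n0 : ℤ, h n0 ≠ 0 ∧ n0 ∉ Bs := by
    by_contra hcon
    push Not at hcon
    set l1 := max l0 (m1 + R (m1 + j)) with hl1
    have c1 : Cyl y l1 (fun n => if n ∈ Bs then g0 n else 0) := by
      refine ⟨hG1.1, fun n n' hw => ?_⟩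
      have e1 := hg0.2 n n' (fun i hi => hw i (hi.trans (by exact_mod_cast le_max_left _ _)))
      have e2 := hBcyl n n' (fun i hi => hw i (hi.trans (by exact_mod_cast le_max_right _ _)))
      show (if n ∈ Bs then g0 n else 0) = (if n' ∈ Bs then g0 n' else 0)
      simp only [e1, e2]
    have c2 : Cyl y l1 (fun n => if n ∈ Bs then 0 else g0 n) := by
      refine ⟨fun n => ?_, fun n n' hw => ?_⟩
      · show |if n ∈ Bs then 0 else g0 n| ≤ 1
        split_ifs
        · simp
        · exact hg0.1 n
      · have e1 := hg0.2 n n' (fun i hi => hw i (hi.trans (by exact_mod_cast le_max_left _ _)))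
        have e2 := hBcyl n n' (fun i hi => hw i (hi.trans (by exact_mod_cast le_max_right _ _)))
        show (if n ∈ Bs then 0 else g0 n) = (if n' ∈ Bs then 0 else g0 n')
        simp only [e1, e2]
    have c3 : Cyl y (max l1 l'') (fun n => (if n ∈ Bs then 0 else g0 n) + h n) := by
      refine ⟨fun n => ?_, fun n n' hw => ?_⟩
      · show |(if n ∈ Bs then 0 else g0 n) + h n| ≤ 1
        by_cases hn : n ∈ Bs
        · rw [if_pos hn, zero_add]
          exact hh.1 n
        · have : h n = 0 := by
            by_contra h4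
            exact hn (hcon n h4)
          rw [this, add_zero]
          exact c2.1 n
      · have e1 := c2.2 n n' (fun i hi => hw i (hi.trans (by exact_mod_cast le_max_left _ _)))
        have e2 := hh.2 n n' (fun i hi => hw i (hi.trans (by exact_mod_cast le_max_right _ _)))
        show (if n ∈ Bs then 0 else g0 n) + h n = (if n' ∈ Bs then 0 else g0 n') + h n'
        simp only at e1
        rw [e1, e2]
    have s1 := hL.add _ _ (good_cyl hA hR c2) (good_cyl hA hR hh)
    have s2 := hL.add _ _ (good_cyl hA hR c1) (good_cyl hA hR c2)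
    have e3 : (fun n => (if n ∈ Bs then g0 n else 0) + (if n ∈ Bs then 0 else g0 n)) = g0 := by
      funext n
      split_ifs <;> simp
    rw [e3] at s2
    have s3 : L (fun n => (if n ∈ Bs then 0 else g0 n) + h n) ≤ sSup T :=
      le_csSup hTb ⟨_, _, c3, rfl⟩
    rw [s1] at s3
    have s4 := (abs_le.1 h3).2
    linarith
  obtain ⟨n0, hn0, hn0B⟩ := hex
  have hn0B' : ∃ m : ℕ, m ≤ m1 ∧ n0 - m ∈ Ret y (R (m + j)) := by
    by_contra hcon
    push Not at hcon
    exact hn0B hcon
  obtain ⟨m, hm, hmem⟩ := hn0B'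
  have hz := hsupp n0 hn0
  have hzy : ∀ i : ℕ, m + i ≤ R (m + j) → z i = y (m + i) := by
    intro i hi
    have e1 := rad_mono hR (show m + j ≤ m1 + j by omega)
    rw [← hz i (by omega)]
    have e2 := hmem (m + i) (by
      rw [abs_of_nonneg (by positivity)]
      exact_mod_cast hi)
    rw [← e2]
    congr 1
    ring
  constructor
  · obtain ⟨n, h1, h2⟩ := hR.meet (m + j) m j (by omega) (by omega)
    refine ⟨n, fun i hi => ?_⟩
    rw [hzy (n + i) (by omega), ← h2 i hi]
    congr 1
    push_cast
    ring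
  · obtain ⟨n, h1, h2⟩ := hR.meet (m + j) (m + 1) j (by omega) (by omega)
    refine ⟨n, fun i hi => ?_⟩
    rw [hzy (n + 1 + i) (by omega), ← h2 i hi]
    congr 1
    push_cast
    ring

end Pool.Agent.W717.UR
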