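import Pool.Agent.W717.UR.Final
import Pool.Agent.W717.UR.Atm
import Pool.Agent.W58.UR.Sign
import Pool.Agent.W11.UR.COR
import Pool.Agent.W508.UR.TV
import Pool.Agent.W741.UR.SM
import Pool.Agent.W59.UR.DESC
import Pool.Agent.W315.UR.Meet
import Pool.Agent.W479.UR.Sel
import Pool.Agent.W557.UR.SMA
import Pool.Agent.W597.UR.QST
import Pool.Agent.W174.UR.Ultra
import Pool.Agent.W99.UR.Prox
import Pool.Agent.W215.UR.Limq
import Pool.Agent.W215.UR.Basic
import Pool.Agent.W696.UR.Eng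
import Pool.Agent.W696.UR.YB
import Pool.Agent.W177.UR.BPY
import Pool.Agent.W991.UR.Min
import Pool.Agent.W591.UR.Aper
import Pool.Agent.W347.UR.Trans
import Pool.Agent.W59.UR.PICK
import Pool.Agent.W59.UR.RAD
import Pool.Agent.W696.UR.Low
import Pool.Agent.W493.UR.NA
import Pool.Agent.W493.UR.DENS

set_option autoImplicit false

namespace Pool.Agent.W717.UR

theorem asm :
    ∃ (X : Type) (_ : NormedAddCommGroup X) (_ : NormedSpace ℝ X) (_ : CompleteSpace X)
      (T : X →L[ℝ] X), Dense {x : X | URVec T x} ∧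
      ¬ ∃ M : Submodule ℝ X, Dense (M : Set X) ∧ ∀ x ∈ M, URVec T x := by
  have hBASIC : S_BASIC := Pool.Agent.W215.UR.basic
  have hATM : S_ATM := atm Pool.Agent.W493.UR.adm
  have hYB : S_YB := Pool.Agent.W696.UR.t_YB hBASIC
  have hADM : S_ADM := Pool.Agent.W493.UR.adm
  have hDESC : S_DESC := Pool.Agent.W59.UR.t_DESC hBASIC
  have hBPY : S_BPY := Pool.Agent.W177.UR.BPY hBASIC hYB hDESC
  have hCOR : S_COR := Pool.Agent.W11.UR.cor hBASIC
  have hENG : S_ENG := Pool.Agent.W696.UR.t_ENG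
  have hMIN : S_MIN := Pool.Agent.W991.UR.t_min hBASIC hYB hBPY
  have hAPER : S_APER := Pool.Agent.W591.UR.aper hBASIC hBPY hCOR hENG
  have hMEET : S_MEET := Pool.Agent.W315.UR.meet hBASIC hYB hMIN
  have hTV : S_TV := Pool.Agent.W508.UR.tv hADM
  have hSM : S_SM := Pool.Agent.W741.UR.proof_sm hADM Pool.Agent.W557.UR.sma
  have hLOW : S_LOW := Pool.Agent.W696.UR.t_LOW hADM
  have hQST : S_QST := Pool.Agent.W597.UR.qst hADM
  have hLIMQ : S_LIMQ := Pool.Agent.W215.UR.limq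
  have hMAIN : S_MAINL := mainL hTV hSM hLOW Pool.Agent.W493.UR.na hQST hATM
    Pool.Agent.W99.UR.prox hLIMQ
  exact final Pool.Agent.W174.UR.ultra (par Pool.Agent.W58.UR.sign) hBASIC hCOR hYB hBPY hMIN
    hAPER hMEET W347.UR.trans Pool.Agent.W59.UR.t_PICK Pool.Agent.W59.UR.t_RAD hADM
    Pool.Agent.W479.UR.sel Pool.Agent.W493.UR.dens hLIMQ hMAIN

end Pool.Agent.W717.UR
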