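import Mathlib

set_option autoImplicit false

namespace Pool.Agent.W717.UR

open Filter Topology

/-! ### Ultrafilters and sequences -/

/-- `z'` is the `q`-limit of the shifts of `z` -/
def Lim (q : Ultrafilter ℕ) (z z' : ℕ → ℤ) : Prop :=
  ∀ i, ∀ᶠ n in (q : Filter ℕ), z (n + i) = z' i

/-! ### Two-sided sequences -/

/-- values in `{-1, 0, 1}` -/
def AlphP (y : ℤ → ℤ) : Prop := ∀ n, y n = -1 ∨ y n = 0 ∨ y n = 1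

/-- all windows of `y` occur in `y` with bounded gaps -/
def MinP (y : ℤ → ℤ) : Prop :=
  ∀ R : ℕ, ∃ g : ℕ, ∀ n n' : ℤ, ∃ s : ℕ, s ≤ g ∧ ∀ i : ℤ, |i| ≤ R → y (n' + s + i) = y (n + i)

/-- no long local periods -/
def AperP (y : ℤ → ℤ) : Prop :=
  ∀ d : ℕ, 1 ≤ d → ∃ R : ℕ, ∀ n : ℤ, ¬ ∀ j : ℤ, |j| ≤ R → y (n + j) = y (n + d + j)

/-- the one-sided sequence `x` belongs to the one-sided subshift of `Y` -/
def InP (Y : ℤ → ℤ) (x : ℕ → ℤ) : Prop :=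
  ∀ l : ℕ, ∃ n : ℤ, ∀ i : ℕ, i < l → x i = Y (n + i)

/-- the two-sided sequence `y` belongs to the subshift of `Y` -/
def In2P (Y y : ℤ → ℤ) : Prop :=
  ∀ l : ℕ, ∃ n : ℤ, ∀ i : ℤ, |i| ≤ l → y i = Y (n + i)

/-- `Y` can be made to meet every element of its subshift -/
def MeetP (Y : ℤ → ℤ) : Prop :=
  ∀ x : ℕ → ℤ, InP Y x → ∀ t : ℤ, ∀ l m j : ℕ, ∃ t' : ℤ,
    (∀ i : ℤ, |i| ≤ l → Y (t' + i) = Y (t + i)) ∧
    ∃ n : ℕ, ∀ i : ℕ, i < j → Y (t' + m + n + i) = x (n + i)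

/-- `m`-th shift of `y` meets `x` at all levels -/
def MeetsP (y : ℤ → ℤ) (x : ℕ → ℤ) : Prop :=
  ∀ m j : ℕ, ∃ n : ℕ, ∀ i : ℕ, i < j → y (m + n + i) = x (n + i)

/-- abstract block data: supports and small correlations -/
structure Dec (h : ℕ → ℕ) (b : ℕ → ℤ → ℤ) : Prop where
  mono : StrictMono h
  bd : ∀ K i, |b K i| ≤ 1
  supp : ∀ K i, (i < 0 ∨ (h K : ℤ) ≤ i) → b K i = 0
  cor : ∀ ε : ℝ, 0 < ε → ∃ H : ℕ, ∀ K : ℕ, ∀ r : ℤ, (H : ℤ) ≤ |r| →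
    |((∑ i ∈ Finset.range (h K), b K i * b K (i + r) : ℤ) : ℝ)| ≤ ε * h K

/-- every window of length `h K` of `y` is made of at most two signed blocks -/
def ParseP (h : ℕ → ℕ) (b : ℕ → ℤ → ℤ) (y : ℤ → ℤ) : Prop :=
  ∀ K : ℕ, ∀ n : ℤ, ∃ t f s1 s2 : ℤ, -(h K : ℤ) ≤ t ∧ t ≤ 0 ∧ (f = 0 ∨ f = 1) ∧
    (s1 = 1 ∨ s1 = -1) ∧ (s2 = 1 ∨ s2 = -1) ∧
    ∀ i : ℕ, i < h K → y (n + i) = s1 * b K (i - t) + s2 * b K (i - t - h K - f)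

/-! ### The blocks -/

/-- block lengths -/
def hh (G N : ℕ → ℕ) : ℕ → ℕ
  | 0 => 1
  | k + 1 => G k * (hh G N k + 1) + N k * hh G N k

/-- the blocks, as functions on `ℤ` vanishing outside `[0, h k)`:
`b_{k+1} = (b_k 0)^{G_k} (e_0 b_k) (e_1 b_k) ... (e_{N_k - 1} b_k)` -/
def bb (G N : ℕ → ℕ) (e : ℕ → ℕ → ℤ) : ℕ → ℤ → ℤ
  | 0, i => if i = 0 then 1 else 0
  | k + 1, i =>
    if 0 ≤ i ∧ i < (G k * (hh G N k + 1) : ℕ) then bb G N e k (i % (hh G N k + 1 : ℕ))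
    else if ((G k * (hh G N k + 1) : ℕ) : ℤ) ≤ i ∧ i < (hh G N (k + 1) : ℕ) then
      e k ((i - (G k * (hh G N k + 1) : ℕ)) / (hh G N k : ℕ)).toNat *
        bb G N e k ((i - (G k * (hh G N k + 1) : ℕ)) % (hh G N k : ℕ))
    else 0

/-- admissible parameters -/
structure Par (G N : ℕ → ℕ) (e : ℕ → ℕ → ℤ) : Prop where
  hG : ∀ k, k + 3 ≤ G k
  he : ∀ k q, e k q = 1 ∨ e k q = -1
  hone : ∀ k q, q ≤ G k → e k q = 1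
  hneg : ∀ k, ∃ q, q < N k ∧ e k q = -1
  hcor : ∀ k d, 1 ≤ d →
    |((∑ q ∈ Finset.range (N k - d), e k q * e k (q + d) : ℤ) : ℝ)| ≤ (1 / 100) * (1 / 2) ^ k * N k
  hlen : ∀ k, ((G k * (hh G N k + 1) : ℕ) : ℝ) ≤ (1 / 100) * (1 / 2) ^ k * N k * hh G N k

/-- position of the origin inside the `k`-th block -/
def aa (G N : ℕ → ℕ) : ℕ → ℕ
  | 0 => 0
  | k + 1 => aa G N k + hh G N k + 1

/-- the two-sided sequence -/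
def YY (G N : ℕ → ℕ) (e : ℕ → ℕ → ℤ) (n : ℤ) : ℤ :=
  bb G N e (n.natAbs + 1) (n + aa G N (n.natAbs + 1))

/-- the position `n` is covered by a block (with start `u`), and `v` is the start of the next one -/
def BP (h : ℕ → ℕ) (b : ℕ → ℤ → ℤ) (y : ℤ → ℤ) (k : ℕ) (n : ℤ) : Prop :=
  ∃ u v s1 s2 : ℤ, u ≤ n ∧ n < v ∧ (v = u + h k ∨ (v = u + h k + 1 ∧ y (u + h k) = 0)) ∧
    (s1 = 1 ∨ s1 = -1) ∧ (s2 = 1 ∨ s2 = -1) ∧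
    (∀ i : ℤ, 0 ≤ i → i < h k → y (u + i) = s1 * b k i) ∧
    (∀ i : ℤ, 0 ≤ i → i < h k → y (v + i) = s2 * b k i)

/-! ### Return sets, levels, cylinder functions -/

/-- return times of the central window of radius `R` -/
def Ret (y : ℤ → ℤ) (R : ℕ) : Set ℤ := {a | ∀ j : ℤ, |j| ≤ R → y (a + j) = y j}

/-- admissible functions of level `k` -/
def Adm (A : ℕ → Set ℤ) (k : ℕ) (g : ℤ → ℝ) : Prop :=
  (∀ n, |g n| ≤ 1) ∧ ∀ m n : ℕ, (n : ℤ) - m ∈ A (m + k) → g n = g m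

/-- functions with an admissible multiple -/
def Good (A : ℕ → Set ℤ) (g : ℤ → ℝ) : Prop :=
  ∃ (k : ℕ) (C : ℝ), 0 < C ∧ Adm A k (fun n => g n / C)

/-- cylinder functions of radius `l` bounded by `1` -/
def Cyl (y : ℤ → ℤ) (l : ℕ) (g : ℤ → ℝ) : Prop :=
  (∀ n, |g n| ≤ 1) ∧ ∀ n n' : ℤ, (∀ i : ℤ, |i| ≤ l → y (n + i) = y (n' + i)) → g n = g n'

/-- properties of the radii -/
structure Rad (y : ℤ → ℤ) (x : ℕ → ℤ) (R : ℕ → ℕ) : Prop where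
  growth : ∀ i, 2 * R i + 100 * (i + 2) ≤ R (i + 1)
  gap : ∀ i, ∀ a ∈ Ret y (R i), ∀ a' ∈ Ret y (R i), a ≠ a' → (2 : ℤ) ^ (i + 5) ≤ |a - a'|
  meet : ∀ i m j : ℕ, m ≤ i + 1 → j ≤ i → ∃ n : ℕ, n + j + m ≤ R i ∧
    ∀ i' : ℕ, i' < j → y (m + n + i') = x (n + i')

/-- linear functionals on the functions with a level -/
structure LinF (A : ℕ → Set ℤ) (L : (ℤ → ℝ) → ℝ) : Prop where
  add : ∀ g g' : ℤ → ℝ, Good A g → Good A g' → L (fun n => g n + g' n) = L g + L g'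
  smul : ∀ (c : ℝ) (g : ℤ → ℝ), Good A g → L (fun n => c * g n) = c * L g

/-- the orbit of the functional is bounded by `B` at level zero -/
def OrbB (A : ℕ → Set ℤ) (L : (ℤ → ℝ) → ℝ) (B : ℝ) : Prop :=
  ∀ (n : ℕ) (g : ℤ → ℝ), Adm A 0 g → |L (fun m => g (m + n))| ≤ B

/-- small tails at each level -/
def TailF (A : ℕ → Set ℤ) (L : (ℤ → ℝ) → ℝ) : Prop :=
  ∀ (k : ℕ) (ε : ℝ), 0 < ε → ∃ m1 : ℕ, ∀ g : ℤ → ℝ, Adm A k g →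
    (∀ n : ℕ, n ≤ m1 → g n = 0) → |L g| ≤ ε

/-- the functional is recurrent along `q` -/
def RecF (A : ℕ → Set ℤ) (q : Ultrafilter ℕ) (L : (ℤ → ℝ) → ℝ) : Prop :=
  ∀ (k : ℕ) (g : ℤ → ℝ), Adm A k g →
    Tendsto (fun n : ℕ => L (fun m => g (m + n))) (q : Filter ℕ) (𝓝 (L g))

/-- uniform recurrence at level zero -/
def URF (A : ℕ → Set ℤ) (L : (ℤ → ℝ) → ℝ) : Prop :=
  ∀ ε : ℝ, 0 < ε → ∃ N : ℕ, ∀ m : ℕ, ∃ n : ℕ, m ≤ n ∧ n ≤ m + N ∧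
    ∀ g : ℤ → ℝ, Adm A 0 g → |L (fun m => g (m + n)) - L g| ≤ ε

/-- total variation bound -/
def TVB (y : ℤ → ℤ) (L : (ℤ → ℝ) → ℝ) (V : ℝ) : Prop :=
  ∀ (l : ℕ) (g : ℤ → ℝ), Cyl y l g → |L g| ≤ V

/-- cylinder functions supported on the positions of the word `z 0 ... z (l - 1)` have
`L`-value close to `a` or more -/
def Mass (y : ℤ → ℤ) (L : (ℤ → ℝ) → ℝ) (z : ℕ → ℤ) (a : ℝ) : Prop :=
  ∀ (l : ℕ) (a' : ℝ), a' < a → ∃ (l' : ℕ) (g : ℤ → ℝ), Cyl y l' g ∧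
    (∀ m : ℤ, g m ≠ 0 → ∀ i : ℕ, i < l → y (m + i) = z i) ∧ a' ≤ L g

/-- no atoms: long words carry little mass -/
def NoAtom (y : ℤ → ℤ) (L : (ℤ → ℝ) → ℝ) : Prop :=
  ∀ η : ℝ, 0 < η → ∃ l : ℕ, ∀ (m0 : ℤ) (l' : ℕ) (g : ℤ → ℝ), Cyl y l' g →
    (∀ m : ℤ, g m ≠ 0 → ∀ i : ℕ, i < l → y (m + i) = y (m0 + i)) → |L g| ≤ η

/-! ### The Banach space -/

/-- evaluation points -/
structure Pt (ι : Type) where
  i : ι
  k : ℕ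
  g : ℤ → ℝ

instance (ι : Type) : TopologicalSpace (Pt ι) := ⊥
instance (ι : Type) : DiscreteTopology (Pt ι) := ⟨rfl⟩

/-- ambient space -/
abbrev EE (ι : Type) := BoundedContinuousFunction (Pt ι) ℝ

/-- the second index set used in the selection -/
abbrev Kap (C : Type) := Set (C × ℕ → ℕ × (ℤ → ℝ) → ℝ)

/-- uniformly recurrent vectors -/
def URVec {X : Type} [NormedAddCommGroup X] [NormedSpace ℝ X] (T : X →L[ℝ] X) (x : X) : Prop :=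
  ∀ U ∈ 𝓝 x, ∃ N : ℕ, ∀ m : ℕ, ∃ n : ℕ, m ≤ n ∧ n ≤ m + N ∧ 1 ≤ n ∧ (T ^ n) x ∈ U

end Pool.Agent.W717.UR
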