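import Pool.Agent.W717.UR.Defs

set_option autoImplicit false

namespace Pool.Agent.W717.UR

open Filter Topology Classical

lemma Adm.shift {A : ℕ → Set ℤ} {k : ℕ} {g : ℤ → ℝ} (h : Adm A k g) (n : ℕ) :
    Adm A (k + n) (fun m => g (m + n)) := by
  refine ⟨fun m => h.1 _, fun m n' hmn => ?_⟩
  have h1 := h.2 (m + n) (n' + n) (by
    have e : ((n' + n : ℕ) : ℤ) - ((m + n : ℕ) : ℤ) = (n' : ℤ) - m := by push_cast; ring
    rw [e, show m + n + k = m + (k + n) by ring]
    exact hmn)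
  push_cast at h1
  exact h1

lemma Adm.mono {A : ℕ → Set ℤ} (hA : Antitone A) {k k' : ℕ} (hk : k ≤ k') {g : ℤ → ℝ}
    (h : Adm A k g) : Adm A k' g :=
  ⟨h.1, fun m n hmn => h.2 m n (hA (by omega) hmn)⟩

variable {ι : Type} (A : ι → ℕ → Set ℤ)

noncomputable def genFun (i : ι) (n : ℕ) (p : Pt ι) : ℝ :=
  if p.i = i ∧ Adm (A i) p.k p.g then (1 / 2) ^ p.k * p.g n else 0

lemma genFun_bound (i : ι) (n : ℕ) (p : Pt ι) : ‖genFun A i n p‖ ≤ 1 := by
  unfold genFun
  split_ifs with h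
  · rw [norm_mul, Real.norm_eq_abs, Real.norm_eq_abs, abs_of_pos (by positivity)]
    have h1 := h.2.1 n
    have h2 : ((1 : ℝ) / 2) ^ p.k ≤ 1 := pow_le_one₀ (by norm_num) (by norm_num)
    have h3 : (0 : ℝ) < (1 / 2) ^ p.k := by positivity
    nlinarith [abs_nonneg (p.g n)]
  · simp

/-- generators -/
noncomputable def gen (i : ι) (n : ℕ) : EE ι :=
  BoundedContinuousFunction.ofNormedAddCommGroup (genFun A i n) continuous_of_discreteTopology 1
    (genFun_bound A i n)

lemma gen_apply (i : ι) (n : ℕ) (p : Pt ι) : gen A i n p = genFun A i n p := rfl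

/-- the operator on the ambient space -/
noncomputable def Tp : EE ι →L[ℝ] EE ι :=
  LinearMap.mkContinuous
    { toFun := fun w => BoundedContinuousFunction.ofNormedAddCommGroup
        (fun p => if Adm (A p.i) p.k p.g then 2 * w ⟨p.i, p.k + 1, fun n => p.g (n + 1)⟩ else 0)
        continuous_of_discreteTopology (2 * ‖w‖) (fun p => by
          split_ifs
          · rw [norm_mul, Real.norm_two]
            exact mul_le_mul_of_nonneg_left (w.norm_coe_le_norm _) (by norm_num)
          · simp)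
      map_add' := by
        intro v w
        ext p
        simp only [BoundedContinuousFunction.coe_ofNormedAddCommGroup,
          BoundedContinuousFunction.coe_add, Pi.add_apply]
        split_ifs <;> ring
      map_smul' := by
        intro c w
        ext p
        simp only [BoundedContinuousFunction.coe_ofNormedAddCommGroup,
          BoundedContinuousFunction.coe_smul, smul_eq_mul, RingHom.id_apply]
        split_ifs <;> ring } 2 (by
    intro w
    rw [BoundedContinuousFunction.norm_le (by positivity)]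
    intro p
    simp only [LinearMap.coe_mk, AddHom.coe_mk,
      BoundedContinuousFunction.coe_ofNormedAddCommGroup]
    split_ifs
    · rw [norm_mul, Real.norm_two]
      exact mul_le_mul_of_nonneg_left (w.norm_coe_le_norm _) (by norm_num)
    · simp)

lemma Tp_apply (w : EE ι) (p : Pt ι) : Tp A w p =
    if Adm (A p.i) p.k p.g then 2 * w ⟨p.i, p.k + 1, fun n => p.g (n + 1)⟩ else 0 := rfl

lemma Tp_gen (i : ι) (n : ℕ) : Tp A (gen A i n) = gen A i (n + 1) := by
  ext p
  rw [Tp_apply, gen_apply, gen_apply]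
  unfold genFun
  by_cases hi : p.i = i
  · subst hi
    by_cases h : Adm (A p.i) p.k p.g
    · have h1 := h.shift 1
      simp only [Nat.cast_one] at h1
      rw [if_pos h, if_pos ⟨rfl, h1⟩, if_pos ⟨rfl, h⟩, pow_succ]
      push_cast
      ring
    · rw [if_neg h, if_neg (fun h2 => h h2.2)]
  · rw [if_neg (show ¬ (p.i = i ∧ _) from fun h => hi h.1)]
    rw [if_neg (show ¬ (p.i = i ∧ _) from fun h => hi h.1)]
    simp

lemma Tp_pow_apply (n : ℕ) (w : EE ι) (i : ι) (k : ℕ) (g : ℤ → ℝ) (h : Adm (A i) k g) :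
    (Tp A ^ n) w ⟨i, k, g⟩ = 2 ^ n * w ⟨i, k + n, fun m => g (m + n)⟩ := by
  induction n generalizing k g with
  | zero => simp
  | succ n ih =>
    rw [pow_succ', mul_apply_eq_comp, Tp_apply, if_pos h]
    have h1 := h.shift 1
    simp only [Nat.cast_one] at h1
    rw [ih _ _ h1]
    have e1 : k + 1 + n = k + (n + 1) := by ring
    have e2 : (fun m : ℤ => g (m + n + 1)) = fun m : ℤ => g (m + ((n + 1 : ℕ) : ℤ)) := by
      funext m; congr 1; push_cast; ring
    rw [e1, e2, pow_succ]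
    ring

/-- the Banach space -/
noncomputable def XX : Submodule ℝ (EE ι) :=
  (Submodule.span ℝ (Set.range fun p : ι × ℕ => gen A p.1 p.2)).topologicalClosure

lemma XX_closed : IsClosed (XX A : Set (EE ι)) := Submodule.isClosed_topologicalClosure _

noncomputable instance : CompleteSpace (XX A) := (XX_closed A).completeSpace_coe

lemma gen_mem (i : ι) (n : ℕ) : gen A i n ∈ XX A :=
  Submodule.le_topologicalClosure _ (Submodule.subset_span ⟨(i, n), rfl⟩)

/-- linear identities extend from the generators -/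
lemma ext_of_gen (Λ : EE ι →L[ℝ] ℝ) (hΛ : ∀ i n, Λ (gen A i n) = 0) (w : EE ι) (hw : w ∈ XX A) :
    Λ w = 0 := by
  have h1 : XX A ≤ LinearMap.ker (Λ : EE ι →ₗ[ℝ] ℝ) := by
    unfold XX
    apply Submodule.topologicalClosure_minimal
    · rw [Submodule.span_le]
      rintro _ ⟨p, rfl⟩
      exact hΛ p.1 p.2
    · exact Λ.isClosed_ker
  exact h1 hw

lemma Tp_mem {w : EE ι} (hw : w ∈ XX A) : Tp A w ∈ XX A := by
  have h1 : XX A ≤ (XX A).comap (Tp A : EE ι →ₗ[ℝ] EE ι) := by
    conv_lhs => unfold XX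
    apply Submodule.topologicalClosure_minimal
    · rw [Submodule.span_le]
      rintro _ ⟨p, rfl⟩
      show Tp A (gen A p.1 p.2) ∈ XX A
      rw [Tp_gen]
      exact gen_mem A _ _
    · exact (XX_closed A).preimage (Tp A).continuous
  exact h1 hw

/-- the operator -/
noncomputable def TX : XX A →L[ℝ] XX A :=
  ((Tp A).comp (XX A).subtypeL).codRestrict (XX A) (fun w => Tp_mem A w.2)

lemma TX_coe (w : XX A) : ((TX A w : XX A) : EE ι) = Tp A (w : EE ι) := rfl

lemma TX_pow_coe (n : ℕ) (w : XX A) : (((TX A ^ n) w : XX A) : EE ι) = (Tp A ^ n) (w : EE ι) := by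
  induction n with
  | zero => rfl
  | succ n ih =>
    rw [pow_succ', pow_succ', mul_apply_eq_comp, mul_apply_eq_comp,
      TX_coe, ih]

/-- evaluation functional -/
noncomputable def ev (p : Pt ι) : EE ι →L[ℝ] ℝ := BoundedContinuousFunction.evalCLM ℝ p

lemma ev_apply (p : Pt ι) (w : EE ι) : ev p w = w p := rfl

/-- scaled evaluation on generators -/
lemma ev_gen (i j : ι) (k n : ℕ) (C : ℝ) (hC : 0 < C) (g : ℤ → ℝ)
    (h : Adm (A i) k (fun n => g n / C)) :
    C * 2 ^ k * gen A j n ⟨i, k, fun n => g n / C⟩ = if i = j then g n else 0 := by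
  rw [gen_apply]
  unfold genFun
  by_cases hij : i = j
  · subst hij
    rw [if_pos ⟨rfl, h⟩, if_pos rfl]
    have : (2 : ℝ) ^ k * (1 / 2) ^ k = 1 := by rw [← mul_pow]; norm_num
    calc C * 2 ^ k * ((1 / 2) ^ k * (g n / C)) = (2 ^ k * (1 / 2) ^ k) * (C * (g n / C)) := by ring
      _ = g n := by rw [this, one_mul, mul_div_cancel₀ _ hC.ne']
  · rw [if_neg (fun h2 => hij h2.1), if_neg hij, mul_zero]

/-- the functional attached to a vector -/
noncomputable def LL (i : ι) (w : EE ι) (g : ℤ → ℝ) : ℝ :=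
  if h : Good (A i) g then
    h.choose_spec.choose * 2 ^ h.choose * w ⟨i, h.choose, fun n => g n / h.choose_spec.choose⟩
  else 0

lemma LL_eq {i : ι} {w : EE ι} (hw : w ∈ XX A) {g : ℤ → ℝ} {k : ℕ} {C : ℝ} (hC : 0 < C)
    (h : Adm (A i) k (fun n => g n / C)) :
    LL A i w g = C * 2 ^ k * w ⟨i, k, fun n => g n / C⟩ := by
  have hg : Good (A i) g := ⟨k, C, hC, h⟩
  unfold LL
  rw [dif_pos hg]
  set k' := hg.choose
  set C' := hg.choose_spec.choose
  have hC' : 0 < C' := hg.choose_spec.choose_spec.1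
  have h' : Adm (A i) k' (fun n => g n / C') := hg.choose_spec.choose_spec.2
  have := ext_of_gen A ((C' * 2 ^ k') • ev ⟨i, k', fun n => g n / C'⟩ -
    (C * 2 ^ k) • ev ⟨i, k, fun n => g n / C⟩) (fun j n => by
      simp only [_root_.sub_apply, _root_.smul_apply, ev_apply, smul_eq_mul]
      rw [ev_gen A i j k' n C' hC' g h', ev_gen A i j k n C hC g h, sub_self]) w hw
  simp only [_root_.sub_apply, _root_.smul_apply, ev_apply, smul_eq_mul] at this
  linarith

lemma LL_adm {i : ι} {w : EE ι} (hw : w ∈ XX A) {g : ℤ → ℝ} {k : ℕ}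
    (h : Adm (A i) k g) : LL A i w g = 2 ^ k * w ⟨i, k, g⟩ := by
  have h1 : Adm (A i) k (fun n => g n / 1) := by simpa using h
  rw [LL_eq A hw one_pos h1]
  simp

lemma good_add {A : ℕ → Set ℤ} (hA : Antitone A) {g g' : ℤ → ℝ} (h : Good A g) (h' : Good A g') :
    Good A (fun n => g n + g' n) := by
  obtain ⟨k, C, hC, h1, h2⟩ := h
  obtain ⟨k', C', hC', h1', h2'⟩ := h'
  refine ⟨max k k', C + C', by positivity, fun n => ?_, fun m n hmn => ?_⟩
  · have e1 := h1 n
    have e2 := h1' n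
    simp only [abs_div, abs_of_pos hC, abs_of_pos hC'] at e1 e2
    rw [div_le_one hC] at e1
    rw [div_le_one hC'] at e2
    rw [abs_div, abs_of_pos (by positivity : 0 < C + C'), div_le_one (by positivity)]
    exact (abs_add_le _ _).trans (add_le_add e1 e2)
  · have e1 := h2 m n (hA (by omega) hmn)
    have e2 := h2' m n (hA (by omega) hmn)
    simp only at e1 e2
    rw [div_left_inj' hC.ne'] at e1
    rw [div_left_inj' hC'.ne'] at e2
    simp only [e1, e2]

lemma good_smul {A : ℕ → Set ℤ} {g : ℤ → ℝ} (c : ℝ) (h : Good A g) :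
    Good A (fun n => c * g n) := by
  obtain ⟨k, C, hC, h1, h2⟩ := h
  refine ⟨k, C * (|c| + 1), by positivity, fun n => ?_, fun m n hmn => ?_⟩
  · have e1 := h1 n
    simp only [abs_div, abs_of_pos hC] at e1
    rw [div_le_one hC] at e1
    rw [abs_div, abs_of_pos (by positivity : 0 < C * (|c| + 1)), div_le_one (by positivity),
      abs_mul]
    nlinarith [abs_nonneg c, abs_nonneg (g n)]
  · have e1 := h2 m n hmn
    simp only at e1
    rw [div_left_inj' hC.ne'] at e1
    simp only [e1]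

theorem linF {i : ι} (hA : Antitone (A i)) {w : EE ι} (hw : w ∈ XX A) :
    LinF (A i) (LL A i w) := by
  constructor
  · intro g g' h h'
    obtain ⟨k'', C'', hC'', h''⟩ := good_add hA h h'
    obtain ⟨k, C, hC, h⟩ := h
    obtain ⟨k', C', hC', h'⟩ := h'
    rw [LL_eq A hw hC'' h'', LL_eq A hw hC h, LL_eq A hw hC' h']
    have := ext_of_gen A ((C'' * 2 ^ k'') • ev ⟨i, k'', fun n => (g n + g' n) / C''⟩ -
      (C * 2 ^ k) • ev ⟨i, k, fun n => g n / C⟩ - (C' * 2 ^ k') • ev ⟨i, k', fun n => g' n / C'⟩)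
      (fun j n => by
        simp only [_root_.sub_apply, _root_.smul_apply, ev_apply, smul_eq_mul]
        rw [ev_gen A i j k' n C' hC' g' h', ev_gen A i j k n C hC g h,
          ev_gen A i j k'' n C'' hC'' (fun n => g n + g' n) h'']
        split_ifs <;> ring) w hw
    simp only [_root_.sub_apply, _root_.smul_apply, ev_apply, smul_eq_mul] at this
    linarith
  · intro c g h
    obtain ⟨k'', C'', hC'', h''⟩ := good_smul c h
    obtain ⟨k, C, hC, h⟩ := h
    rw [LL_eq A hw hC'' h'', LL_eq A hw hC h]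
    have := ext_of_gen A ((C'' * 2 ^ k'') • ev ⟨i, k'', fun n => (c * g n) / C''⟩ -
      (c * (C * 2 ^ k)) • ev ⟨i, k, fun n => g n / C⟩)
      (fun j n => by
        simp only [_root_.sub_apply, _root_.smul_apply, ev_apply, smul_eq_mul]
        rw [mul_assoc c, ev_gen A i j k n C hC g h,
          ev_gen A i j k'' n C'' hC'' (fun n => c * g n) h'']
        split_ifs <;> ring) w hw
    simp only [_root_.sub_apply, _root_.smul_apply, ev_apply, smul_eq_mul] at this
    linarith

lemma LL_shift {i : ι} {w : EE ι} (hw : w ∈ XX A) {g : ℤ → ℝ} {k : ℕ} (h : Adm (A i) k g)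
    (n : ℕ) : LL A i w (fun m => g (m + n)) = 2 ^ k * (Tp A ^ n) w ⟨i, k, g⟩ := by
  rw [LL_adm A hw (h.shift n), Tp_pow_apply A n w i k g h, pow_add]
  ring

theorem orbB {i : ι} {w : EE ι} (hw : w ∈ XX A) {B : ℝ} (hB : ∀ n, ‖(Tp A ^ n) w‖ ≤ B) :
    OrbB (A i) (LL A i w) B := by
  intro n g hg
  rw [LL_shift A hw hg, pow_zero, one_mul, ← Real.norm_eq_abs]
  exact ((Tp A ^ n) w).norm_coe_le_norm _ |>.trans (hB n)

theorem recF {i : ι} {w : EE ι} (hw : w ∈ XX A) {q : Ultrafilter ℕ}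
    (hq : Tendsto (fun n : ℕ => (Tp A ^ n) w) (q : Filter ℕ) (𝓝 w)) :
    RecF (A i) q (LL A i w) := by
  intro k g hg
  have h1 : Tendsto (fun n : ℕ => 2 ^ k * ev ⟨i, k, g⟩ ((Tp A ^ n) w)) (q : Filter ℕ)
      (𝓝 (2 ^ k * ev ⟨i, k, g⟩ w)) :=
    (((ev (⟨i, k, g⟩ : Pt ι)).continuous.tendsto w).comp hq).const_mul _
  rw [LL_adm A hw hg]
  refine h1.congr fun n => ?_
  rw [LL_shift A hw hg]
  rfl

theorem urF {i : ι} {w : EE ι} (hw : w ∈ XX A)
    (hur : ∀ ε : ℝ, 0 < ε → ∃ N : ℕ, ∀ m : ℕ, ∃ n : ℕ, m ≤ n ∧ n ≤ m + N ∧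
      ‖(Tp A ^ n) w - w‖ ≤ ε) : URF (A i) (LL A i w) := by
  intro ε hε
  obtain ⟨N, hN⟩ := hur ε hε
  refine ⟨N, fun m => ?_⟩
  obtain ⟨n, h1, h2, h3⟩ := hN m
  refine ⟨n, h1, h2, fun g hg => ?_⟩
  rw [LL_shift A hw hg, LL_adm A hw hg, pow_zero, one_mul, one_mul, ← Real.norm_eq_abs]
  exact (((Tp A ^ n) w - w).norm_coe_le_norm _).trans h3

theorem tailF {i : ι} {w : EE ι} (hw : w ∈ XX A) : TailF (A i) (LL A i w) := by
  intro k ε hε
  have hcl : w ∈ closure ((Submodule.span ℝ (Set.range fun p : ι × ℕ => gen A p.1 p.2) :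
      Submodule ℝ (EE ι)) : Set (EE ι)) := by
    rw [← Submodule.topologicalClosure_coe]; exact hw
  obtain ⟨v, hv, hdv⟩ := Metric.mem_closure_iff.1 hcl (ε / 2 ^ k) (by positivity)
  rw [SetLike.mem_coe, Finsupp.mem_span_range_iff_exists_finsupp] at hv
  obtain ⟨c, rfl⟩ := hv
  refine ⟨c.support.sup (fun p => p.2), fun g hg h0 => ?_⟩
  rw [LL_adm A hw hg, abs_mul, abs_of_pos (by positivity)]
  have h1 : (c.sum fun p a => a • gen A p.1 p.2) ⟨i, k, g⟩ = 0 := by
    rw [← ev_apply, Finsupp.sum, map_sum]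
    refine Finset.sum_eq_zero fun p hp => ?_
    rw [map_smul, ev_apply, gen_apply]
    unfold genFun
    have h2 : g (p.2 : ℤ) = 0 := h0 p.2 (Finset.le_sup (f := fun p : ι × ℕ => p.2) hp)
    simp only [h2, mul_zero, ite_self, smul_zero]
  have h2 : |w ⟨i, k, g⟩| ≤ ε / 2 ^ k := by
    have h3 := (w - (c.sum fun p a => a • gen A p.1 p.2)).norm_coe_le_norm ⟨i, k, g⟩
    rw [BoundedContinuousFunction.sub_apply, h1, sub_zero, Real.norm_eq_abs] at h3
    rw [dist_eq_norm] at hdv
    exact h3.trans hdv.le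
  calc 2 ^ k * |w ⟨i, k, g⟩| ≤ 2 ^ k * (ε / 2 ^ k) := by gcongr
    _ = ε := by field_simp

end Pool.Agent.W717.UR
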