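import Pool.Agent.W717.UR.Stm
import Pool.Agent.W717.UR.Space

set_option autoImplicit false

namespace Pool.Agent.W717.UR

open Filter Topology

attribute [local instance] Ultrafilter.addSemigroup

/-! ### ultrafilters fixing vectors -/

section fixed

variable {X : Type} [NormedAddCommGroup X] [NormedSpace ℝ X]

/-- `r` fixes `u` -/
def Fixes (T : X →L[ℝ] X) (u : X) (r : Ultrafilter ℕ) : Prop :=
  Tendsto (fun n : ℕ => (T ^ n) u) (r : Filter ℕ) (𝓝 u)

lemma fixes_iff (T : X →L[ℝ] X) (u : X) (r : Ultrafilter ℕ) :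
    Fixes T u r ↔ ∀ k : ℕ, {n : ℕ | ‖(T ^ n) u - u‖ < 1 / ((k : ℝ) + 1)} ∈ r := by
  unfold Fixes
  rw [Metric.tendsto_nhds]
  constructor
  · intro h k
    filter_upwards [h (1 / ((k : ℝ) + 1)) (by positivity)] with n hn
    rw [dist_eq_norm] at hn
    exact hn
  · intro h ε hε
    obtain ⟨k, hk⟩ := exists_nat_one_div_lt hε
    filter_upwards [h k] with n hn
    rw [dist_eq_norm]
    exact lt_trans hn hk

lemma isClosed_fixes (T : X →L[ℝ] X) (u : X) : IsClosed {r : Ultrafilter ℕ | Fixes T u r} := by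
  have : {r : Ultrafilter ℕ | Fixes T u r} =
      ⋂ k : ℕ, {r : Ultrafilter ℕ | {n : ℕ | ‖(T ^ n) u - u‖ < 1 / ((k : ℝ) + 1)} ∈ r} := by
    ext r
    simp only [Set.mem_ofPred_eq, Set.mem_iInter]
    exact fixes_iff T u r
  rw [this]
  exact isClosed_iInter fun k => ultrafilter_isClosed_basic _

lemma Fixes.add {T : X →L[ℝ] X} {u : X} {r s : Ultrafilter ℕ} (hr : Fixes T u r)
    (hs : Fixes T u s) : Fixes T u (r + s) := by
  unfold Fixes
  rw [Metric.tendsto_nhds]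
  intro ε hε
  rw [Ultrafilter.eventually_add]
  unfold Fixes at hr hs
  rw [Metric.tendsto_nhds] at hr
  filter_upwards [hr (ε / 2) (by positivity)] with m hm
  have h1 : Tendsto (fun n : ℕ => (T ^ m) ((T ^ n) u)) (s : Filter ℕ) (𝓝 ((T ^ m) u)) :=
    ((T ^ m).continuous.tendsto u).comp hs
  rw [Metric.tendsto_nhds] at h1
  filter_upwards [h1 (ε / 2) (by positivity)] with n hn
  rw [pow_add, mul_apply_eq_comp]
  calc dist ((T ^ m) ((T ^ n) u)) u ≤ dist ((T ^ m) ((T ^ n) u)) ((T ^ m) u) +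
        dist ((T ^ m) u) u := dist_triangle _ _ _
    _ < ε / 2 + ε / 2 := add_lt_add hn hm
    _ = ε := by ring

/-- a uniformly recurrent vector is fixed by an element of each closed left ideal -/
theorem exists_fixes {T : X →L[ℝ] X} {u : X} (hu : URVec T u) {L : Set (Ultrafilter ℕ)}
    (hL : IsClosed L) (hne : L.Nonempty) (hid : ∀ p, ∀ s ∈ L, p + s ∈ L) :
    ∃ r ∈ L, Fixes T u r := by
  set S : ℕ → Set ℕ := fun k => {n : ℕ | ‖(T ^ n) u - u‖ < 1 / ((k : ℝ) + 1)} with hS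
  have hanti : ∀ k, S (k + 1) ⊆ S k := by
    intro k n hn
    simp only [hS, Set.mem_ofPred_eq] at hn ⊢
    refine lt_of_lt_of_le hn ?_
    apply one_div_le_one_div_of_le (by positivity)
    push_cast
    linarith
  have hex : ∀ k, ∃ r ∈ L, S k ∈ r := by
    intro k
    obtain ⟨s, hs⟩ := hne
    obtain ⟨N, hN⟩ := hu (Metric.ball u (1 / ((k : ℝ) + 1))) (Metric.ball_mem_nhds _ (by positivity))
    have hcov : (⋃ i ∈ Set.Iic N, {m : ℕ | i + m ∈ S k}) ∈ s := by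
      apply Filter.mem_of_superset Filter.univ_mem
      intro m _
      obtain ⟨n, h1, h2, _, h4⟩ := hN m
      simp only [Set.mem_iUnion, Set.mem_Iic, exists_prop]
      refine ⟨n - m, by omega, ?_⟩
      show n - m + m ∈ S k
      rw [Nat.sub_add_cancel h1]
      rw [Metric.mem_ball, dist_eq_norm] at h4
      exact h4
    rw [Ultrafilter.finite_biUnion_mem_iff (Set.finite_Iic N)] at hcov
    obtain ⟨i, _, hi⟩ := hcov
    refine ⟨(pure i : Ultrafilter ℕ) + s, hid _ s hs, ?_⟩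
    have : ∀ᶠ n in (((pure i : Ultrafilter ℕ) + s : Ultrafilter ℕ) : Filter ℕ), n ∈ S k := by
      rw [Ultrafilter.eventually_add]
      have h5 : ∀ᶠ m in (s : Filter ℕ), i + m ∈ S k := hi
      simpa using h5
    exact this
  have h := IsCompact.nonempty_iInter_of_sequence_nonempty_isCompact_isClosed
    (fun k => L ∩ {r : Ultrafilter ℕ | S k ∈ r}) (fun k r hr =>
      ⟨hr.1, Filter.mem_of_superset hr.2 (hanti k)⟩)
    (fun k => by obtain ⟨r, h1, h2⟩ := hex k; exact ⟨r, h1, h2⟩)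
    ((hL.inter (ultrafilter_isClosed_basic _)).isCompact)
    (fun k => hL.inter (ultrafilter_isClosed_basic _))
  obtain ⟨r, hr⟩ := h
  rw [Set.mem_iInter] at hr
  exact ⟨r, (hr 0).1, (fixes_iff T u r).2 fun k => (hr k).2⟩

/-- orbits of uniformly recurrent vectors are bounded -/
theorem orbit_bounded {T : X →L[ℝ] X} {u : X} (hu : URVec T u) :
    ∃ B : ℝ, ∀ n : ℕ, ‖(T ^ n) u‖ ≤ B := by
  obtain ⟨N, hN⟩ := hu (Metric.ball u 1) (Metric.ball_mem_nhds _ one_pos)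
  set M : ℝ := ∑ i ∈ Finset.range (N + 1), ‖T ^ i‖ with hM
  have hMi : ∀ i ≤ N, ‖T ^ i‖ ≤ M := fun i hi =>
    Finset.single_le_sum (f := fun i => ‖T ^ i‖) (fun i _ => norm_nonneg _)
      (Finset.mem_range.2 (by omega))
  have hM0 : 0 ≤ M := Finset.sum_nonneg fun i _ => norm_nonneg _
  refine ⟨M * (‖u‖ + 1), fun n => ?_⟩
  by_cases hn : n ≤ N
  · calc ‖(T ^ n) u‖ ≤ ‖T ^ n‖ * ‖u‖ := (T ^ n).le_opNorm u
      _ ≤ M * (‖u‖ + 1) := by
        gcongr
        · exact hMi n hn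
        · linarith
  · obtain ⟨n', h1, h2, _, h4⟩ := hN (n - N)
    have h3 : n' ≤ n := by omega
    rw [Metric.mem_ball, dist_eq_norm] at h4
    have e : n = (n - n') + n' := by omega
    rw [e, pow_add, mul_apply_eq_comp]
    calc ‖(T ^ (n - n')) ((T ^ n') u)‖ ≤ ‖T ^ (n - n')‖ * ‖(T ^ n') u‖ := (T ^ (n - n')).le_opNorm _
      _ ≤ M * (‖u‖ + 1) := by
        gcongr
        · exact hMi _ (by omega)
        · calc ‖(T ^ n') u‖ = ‖u + ((T ^ n') u - u)‖ := by congr 1; abel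
            _ ≤ ‖u‖ + ‖(T ^ n') u - u‖ := norm_add_le _ _
            _ ≤ ‖u‖ + 1 := by linarith

lemma URVec.map {T : X →L[ℝ] X} {u : X} (hu : URVec T u) : URVec T (T u) := by
  intro U hU
  have h1 : T ⁻¹' U ∈ 𝓝 u := T.continuous.continuousAt.preimage_mem_nhds hU
  obtain ⟨N, hN⟩ := hu _ h1
  refine ⟨N, fun m => ?_⟩
  obtain ⟨n, h2, h3, h4, h5⟩ := hN m
  refine ⟨n, h2, h3, h4, ?_⟩
  have : (T ^ n) (T u) = T ((T ^ n) u) := by
    rw [← mul_apply_eq_comp, ← mul_apply_eq_comp, ← pow_succ, ← pow_succ']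
  rw [this]
  exact h5

lemma URVec.eps {T : X →L[ℝ] X} {u : X} (hu : URVec T u) (ε : ℝ) (hε : 0 < ε) :
    ∃ N : ℕ, ∀ m : ℕ, ∃ n : ℕ, m ≤ n ∧ n ≤ m + N ∧ ‖(T ^ n) u - u‖ ≤ ε := by
  obtain ⟨N, hN⟩ := hu (Metric.ball u ε) (Metric.ball_mem_nhds _ hε)
  refine ⟨N, fun m => ?_⟩
  obtain ⟨n, h2, h3, _, h5⟩ := hN m
  rw [Metric.mem_ball, dist_eq_norm] at h5
  exact ⟨n, h2, h3, h5.le⟩

end fixed

/-! ### components -/

variable {ι : Type} (A : ι → ℕ → Set ℤ)

lemma comp_zero (n : ℕ) (w : EE ι) (i : ι) (h : ∀ k g, w ⟨i, k, g⟩ = 0) (k : ℕ) (g : ℤ → ℝ) :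
    (Tp A ^ n) w ⟨i, k, g⟩ = 0 := by
  induction n generalizing k g with
  | zero => exact h k g
  | succ n ih =>
    rw [pow_succ', mul_apply_eq_comp, Tp_apply]
    simp only
    rw [ih]
    simp

lemma countable_supp {w : EE ι} (hw : w ∈ XX A) :
    {i : ι | ∃ k g, w ⟨i, k, g⟩ ≠ 0}.Countable := by
  have hcl : w ∈ closure ((Submodule.span ℝ (Set.range fun p : ι × ℕ => gen A p.1 p.2) :
      Submodule ℝ (EE ι)) : Set (EE ι)) := by
    rw [← Submodule.topologicalClosure_coe]; exact hw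
  have h1 : ∀ s : ℕ, ∃ c : ι × ℕ →₀ ℝ,
      dist w (c.sum fun p a => a • gen A p.1 p.2) < 1 / ((s : ℝ) + 1) := by
    intro s
    obtain ⟨v, hv, hdv⟩ := Metric.mem_closure_iff.1 hcl (1 / ((s : ℝ) + 1)) (by positivity)
    rw [SetLike.mem_coe, Finsupp.mem_span_range_iff_exists_finsupp] at hv
    obtain ⟨c, rfl⟩ := hv
    exact ⟨c, hdv⟩
  choose c hc using h1
  have h2 : (⋃ s : ℕ, Prod.fst '' ((c s).support : Set (ι × ℕ))).Countable := by
    apply Set.countable_iUnion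
    intro s
    exact (((c s).support : Set (ι × ℕ)).to_countable).image _
  refine h2.mono ?_
  rintro i ⟨k, g, hne⟩
  obtain ⟨s, hs⟩ := exists_nat_one_div_lt (abs_pos.2 hne)
  rw [Set.mem_iUnion]
  refine ⟨s, ?_⟩
  by_contra hi
  have h3 : ((c s).sum fun p a => a • gen A p.1 p.2) ⟨i, k, g⟩ = 0 := by
    rw [← ev_apply, Finsupp.sum, map_sum]
    refine Finset.sum_eq_zero fun p hp => ?_
    rw [map_smul, ev_apply, gen_apply]
    unfold genFun
    rw [if_neg, smul_zero]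
    rintro ⟨h4, _⟩
    apply hi
    exact ⟨p, hp, h4.symm⟩
  have h4 := (w - ((c s).sum fun p a => a • gen A p.1 p.2)).norm_coe_le_norm ⟨i, k, g⟩
  rw [BoundedContinuousFunction.sub_apply, h3, sub_zero, Real.norm_eq_abs] at h4
  have h5 := hc s
  rw [dist_eq_norm] at h5
  linarith

/-- the generators `gen i 0` are uniformly recurrent -/
theorem gen_ur (i : ι) (hA : Antitone (A i)) (hs : ∀ K : ℕ, ∃ N : ℕ, ∀ m : ℕ, ∃ n : ℕ,
    m ≤ n ∧ n ≤ m + N ∧ 1 ≤ n ∧ (n : ℤ) ∈ A i K) :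
    URVec (X := XX A) (TX A) ⟨gen A i 0, gen_mem A i 0⟩ := by
  intro U hU
  obtain ⟨ε, hε, hball⟩ := Metric.mem_nhds_iff.1 hU
  obtain ⟨K, hK⟩ := exists_pow_lt_of_lt_one (show 0 < ε / 2 by positivity)
    (by norm_num : (1 / 2 : ℝ) < 1)
  obtain ⟨N, hN⟩ := hs K
  refine ⟨N, fun m => ?_⟩
  obtain ⟨n, h1, h2, h3, h4⟩ := hN m
  refine ⟨n, h1, h2, h3, hball ?_⟩
  have hTn : ∀ n : ℕ, (Tp A ^ n) (gen A i 0) = gen A i n := by
    intro n
    induction n with
    | zero => rfl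
    | succ n ih => rw [pow_succ', mul_apply_eq_comp, ih, Tp_gen]
  rw [Metric.mem_ball, Subtype.dist_eq, TX_pow_coe, hTn, dist_eq_norm]
  refine lt_of_le_of_lt (b := 2 * (1 / 2 : ℝ) ^ K) ?_ (by linarith)
  rw [BoundedContinuousFunction.norm_le (by positivity)]
  intro p
  rw [BoundedContinuousFunction.sub_apply, gen_apply, gen_apply]
  unfold genFun
  by_cases hp : p.i = i ∧ Adm (A i) p.k p.g
  · rw [if_pos hp, if_pos hp]
    by_cases hk : p.k ≤ K
    · have h5 := hp.2.2 0 n (by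
        rw [Nat.cast_zero, sub_zero, zero_add]
        exact hA hk h4)
      rw [h5]
      simp
    · have h6 := hp.2.1 n
      have h7 := hp.2.1 0
      have h8 : ((1 : ℝ) / 2) ^ p.k ≤ (1 / 2) ^ K :=
        pow_le_pow_of_le_one (by norm_num) (by norm_num) (by omega)
      rw [← mul_sub, norm_mul, Real.norm_eq_abs, Real.norm_eq_abs, abs_of_pos (by positivity),
        Nat.cast_zero]
      calc (1 / 2 : ℝ) ^ p.k * |p.g n - p.g 0| ≤ (1 / 2) ^ K * (|p.g n| + |p.g 0|) := by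
            gcongr
            exact abs_sub _ _
        _ ≤ (1 / 2) ^ K * (1 + 1) := by gcongr
        _ = 2 * (1 / 2) ^ K := by ring
  · rw [if_neg hp, if_neg hp]
    simp

end Pool.Agent.W717.UR
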