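import Pool.Agent.W717.UR.MainL
import Pool.Agent.W717.UR.Fix

set_option autoImplicit false

namespace Pool.Agent.W717.UR

open Filter Topology

attribute [local instance] Ultrafilter.addSemigroup

/-- facts on the symbolic system -/
theorem sys (hPAR : S_PAR) (hBASIC : S_BASIC) (hCOR : S_COR) (hYB : S_YB) (hBPY : S_BPY)
    (hMIN : S_MIN) (hAPER : S_APER) (hMEET : S_MEET) :
    ∃ (Y : ℤ → ℤ) (h : ℕ → ℕ) (b : ℕ → ℤ → ℤ), Y 0 = 1 ∧ AlphP Y ∧ MinP Y ∧ AperP Y ∧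
      MeetP Y ∧ Dec h b ∧ ∀ k n, BP h b Y k n := by
  obtain ⟨G, N, e, hP⟩ := hPAR
  obtain ⟨hb1, hb2, hb3⟩ := hBASIC G N e hP
  refine ⟨YY G N e, hh G N, bb G N e, ?_, ?_, hMIN G N e hP, hAPER G N e hP, hMEET G N e hP, ?_,
    hBPY G N e hP⟩
  · have := hYB G N e hP 0 0 le_rfl (by show (0 : ℤ) < ((1 : ℕ) : ℤ); norm_num)
    simpa [aa, bb] using this
  · intro n
    exact hb2 _ _
  · have hm : StrictMono (hh G N) := strictMono_nat_of_lt_succ fun k => (hb1 k).2.2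
    refine ⟨hm, ?_, hb3, ?_⟩
    · intro K i
      rcases hb2 K i with h | h | h <;> rw [h] <;> norm_num
    · intro ε hε
      obtain ⟨j, hj⟩ := exists_pow_lt_of_lt_one (show 0 < ε / (6 / 100) by positivity)
        (by norm_num : (1 / 2 : ℝ) < 1)
      refine ⟨hh G N j, fun K r hr => ?_⟩
      refine (hCOR G N e hP j K r hr).trans ?_
      have h1 : (6 / 100 : ℝ) * (1 / 2) ^ j ≤ ε := by
        rw [lt_div_iff₀ (by norm_num)] at hj
        linarith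
      have h2 : (0 : ℝ) ≤ hh G N K := Nat.cast_nonneg _
      nlinarith

lemma Rad.mono {y : ℤ → ℤ} {x : ℕ → ℤ} {R : ℕ → ℕ} (h : Rad y x R) : Monotone R :=
  monotone_nat_of_le_succ fun i => by have := h.growth i; omega

lemma Rad.anti {y : ℤ → ℤ} {x : ℕ → ℤ} {R : ℕ → ℕ} (h : Rad y x R) :
    Antitone (fun i => Ret y (R i)) := by
  intro i j hij a ha k hk
  apply ha k
  have := h.mono hij
  have h2 : ((R i : ℕ) : ℤ) ≤ (R j : ℕ) := by exact_mod_cast this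
  omega

lemma norm_TX {ι : Type} (A : ι → ℕ → Set ℤ) (n : ℕ) (w : XX A) :
    ‖(TX A ^ n) w - w‖ = ‖(Tp A ^ n) (w : EE ι) - (w : EE ι)‖ := by
  show ‖(((TX A ^ n) w - w : XX A) : EE ι)‖ = _
  rw [Submodule.coe_sub, TX_pow_coe]

/-- an ultrafilter fixing a sum of vectors with disjoint supports fixes each of them -/
theorem fix_sum {ι C : Type} (A : ι → ℕ → Set ℤ) (dX : C → XX A)
    (hdd : ∀ c c' : C, c ≠ c' → ∀ i : ι,
      (∀ k g, (dX c : EE ι) ⟨i, k, g⟩ = 0) ∨ (∀ k g, (dX c' : EE ι) ⟨i, k, g⟩ = 0))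
    (F : Finset C) (r : Ultrafilter ℕ)
    (hfix : Fixes (X := XX A) (TX A) (∑ c ∈ F, dX c) r) (c : C) (hc : c ∈ F) :
    Fixes (X := XX A) (TX A) (dX c) r := by
  classical
  rw [fixes_iff] at hfix ⊢
  intro k
  filter_upwards [hfix k] with n hn
  refine lt_of_le_of_lt ?_ hn
  rw [norm_TX, norm_TX, BoundedContinuousFunction.norm_le (norm_nonneg _)]
  intro p
  by_cases hz : ∀ k g, (dX c : EE ι) ⟨p.i, k, g⟩ = 0
  · have h1 : (Tp A ^ n) (dX c : EE ι) p = 0 := comp_zero A n (dX c : EE ι) p.i hz p.k p.g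
    have h2 : (dX c : EE ι) p = 0 := hz p.k p.g
    rw [BoundedContinuousFunction.sub_apply, h1, h2, sub_zero, norm_zero]
    exact norm_nonneg _
  · refine le_trans (le_of_eq ?_) (BoundedContinuousFunction.norm_coe_le_norm _ p)
    congr 1
    rw [BoundedContinuousFunction.sub_apply, BoundedContinuousFunction.sub_apply]
    have hother : ∀ c' ∈ F, c' ≠ c → ∀ k g, (dX c' : EE ι) ⟨p.i, k, g⟩ = 0 := by
      intro c' _ hne
      rcases hdd c c' hne.symm p.i with h1 | h1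
      · exact absurd h1 hz
      · exact h1
    have hcoe : ((∑ c ∈ F, dX c : XX A) : EE ι) = ∑ c ∈ F, (dX c : EE ι) := by
      rw [Submodule.coe_sum]
    rw [hcoe, map_sum]
    have e1 : (∑ c' ∈ F, (Tp A ^ n) (dX c' : EE ι)) p = (Tp A ^ n) (dX c : EE ι) p := by
      rw [BoundedContinuousFunction.coe_sum, Finset.sum_apply,
        Finset.sum_eq_single_of_mem c hc]
      intro c' hc' hne
      exact comp_zero A n (dX c' : EE ι) p.i (hother c' hc' hne) p.k p.g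
    have e2 : (∑ c' ∈ F, (dX c' : EE ι)) p = (dX c : EE ι) p := by
      rw [BoundedContinuousFunction.coe_sum, Finset.sum_apply,
        Finset.sum_eq_single_of_mem c hc]
      intro c' hc' hne
      exact hother c' hc' hne p.k p.g
    rw [e1, e2]

theorem exists_idem {Q : Set (Ultrafilter ℕ)} (hne : Q.Nonempty) (hcl : IsClosed Q)
    (hadd : ∀ r ∈ Q, ∀ s ∈ Q, r + s ∈ Q) : ∃ q ∈ Q, q + q = q :=
  exists_idempotent_in_compact_add_subsemigroup Ultrafilter.continuous_add_left Q hne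
    hcl.isCompact hadd

/-- a common idempotent -/
theorem common_idem {ι C : Type} (A : ι → ℕ → Set ℤ) (dX : C → XX A)
    (hdd : ∀ c c' : C, c ≠ c' → ∀ i : ι,
      (∀ k g, (dX c : EE ι) ⟨i, k, g⟩ = 0) ∨ (∀ k g, (dX c' : EE ι) ⟨i, k, g⟩ = 0))
    (hur : ∀ F : Finset C, URVec (X := XX A) (TX A) (∑ c ∈ F, dX c))
    (L : Set (Ultrafilter ℕ)) (hL1 : IsClosed L) (hL2 : L.Nonempty)
    (hL3 : ∀ p, ∀ s ∈ L, p + s ∈ L) :
    ∃ q ∈ L, q + q = q ∧ ∀ c, Fixes (X := XX A) (TX A) (dX c) q := by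
  have hfin : ∀ F : Finset C, ∃ r ∈ L, ∀ c ∈ F, Fixes (X := XX A) (TX A) (dX c) r := by
    intro F
    obtain ⟨r, hr, hfix⟩ := exists_fixes (X := XX A) (hur F) hL1 hL2 hL3
    exact ⟨r, hr, fun c hc => fix_sum A dX hdd F r hfix c hc⟩
  obtain ⟨Q, hQ⟩ : ∃ Q : Set (Ultrafilter ℕ),
      Q = L ∩ ⋂ c : C, {r : Ultrafilter ℕ | Fixes (X := XX A) (TX A) (dX c) r} := ⟨_, rfl⟩
  have hQm : ∀ r, r ∈ Q ↔ r ∈ L ∧ ∀ c, Fixes (X := XX A) (TX A) (dX c) r := by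
    intro r
    rw [hQ, Set.mem_inter_iff, Set.mem_iInter]
    rfl
  have hne : Q.Nonempty := by
    rw [hQ]
    apply hL1.isCompact.inter_iInter_nonempty
    · intro c
      exact isClosed_fixes _ _
    · intro F
      obtain ⟨r, hr, hr2⟩ := hfin F
      refine ⟨r, hr, ?_⟩
      rw [Set.mem_iInter₂]
      exact hr2
  have hQc : IsClosed Q := by
    rw [hQ]
    exact hL1.inter (isClosed_iInter fun c => isClosed_fixes _ _)
  obtain ⟨q, hqQ, hqq⟩ := exists_idem hne hQc (by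
    intro r hr s hs
    rw [hQm] at hr hs ⊢
    exact ⟨hL3 r s hs.1, fun c => (hr.2 c).add (hs.2 c)⟩)
  rw [hQm] at hqQ
  exact ⟨q, hqQ.1, hqq, hqQ.2⟩

/-- elements of the one-sided subshift are not constant -/
lemma not_const {Y : ℤ → ℤ} (hYap : AperP Y) {x : ℕ → ℤ} (hxin : InP Y x) :
    ∃ i, x (i + 1) ≠ x i := by
  by_contra hcon
  push Not at hcon
  obtain ⟨R1, hR1⟩ := hYap 1 le_rfl
  obtain ⟨n, hn⟩ := hxin (2 * R1 + 2)
  apply hR1 (n + R1)
  intro j hj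
  rw [abs_le] at hj
  have e1 := hn (j + R1).toNat (by omega)
  have e2 := hn ((j + R1).toNat + 1) (by omega)
  have e3 := hcon (j + R1).toNat
  have e4 : ((j + R1).toNat : ℤ) = j + R1 := Int.toNat_of_nonneg (by omega)
  rw [e3, e1] at e2
  push_cast at e2
  rw [e4] at e2
  rw [show n + (R1 : ℤ) + j = n + (j + R1) by ring,
    show n + (R1 : ℤ) + ((1 : ℕ) : ℤ) + j = n + (j + R1 + 1) by push_cast; ring]
  exact e2

/-- density of the uniformly recurrent vectors -/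
theorem dense_ur (hDENS : S_DENS) {ι : Type} (A : ι → ℕ → Set ℤ) (hA : ∀ i, Antitone (A i))
    (hs : ∀ i : ι, ∀ K : ℕ, ∃ N : ℕ, ∀ m : ℕ, ∃ n : ℕ,
      m ≤ n ∧ n ≤ m + N ∧ 1 ≤ n ∧ (n : ℤ) ∈ A i K) :
    Dense {x : XX A | URVec (X := XX A) (TX A) x} := by
  have hgenur : ∀ i : ι, ∀ n : ℕ, URVec (X := XX A) (TX A) ⟨gen A i n, gen_mem A i n⟩ := by
    intro i n
    induction n with
    | zero => exact gen_ur A i (hA i) (hs i)
    | succ n ih =>
      have h1 := URVec.map ih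
      have h2 : (TX A) ⟨gen A i n, gen_mem A i n⟩ = ⟨gen A i (n + 1), gen_mem A i (n + 1)⟩ := by
        apply Subtype.ext
        rw [TX_coe, Tp_gen]
      rw [h2] at h1
      exact h1
  apply hDENS (XX A) (TX A)
  intro w
  rw [closure_subtype]
  have hcl : (w : EE ι) ∈ closure ((Submodule.span ℝ
      (Set.range fun p : ι × ℕ => gen A p.1 p.2) : Submodule ℝ (EE ι)) : Set (EE ι)) := by
    rw [← Submodule.topologicalClosure_coe]; exact w.2
  refine closure_mono ?_ hcl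
  have h1 : Submodule.span ℝ (Set.range fun p : ι × ℕ => gen A p.1 p.2) ≤
      (Submodule.span ℝ {x : XX A | URVec (X := XX A) (TX A) x}).map (XX A).subtype := by
    rw [Submodule.span_le]
    rintro _ ⟨p, rfl⟩
    exact ⟨⟨gen A p.1 p.2, gen_mem A p.1 p.2⟩, Submodule.subset_span (hgenur p.1 p.2), rfl⟩
  intro v hv
  obtain ⟨u, hu, rfl⟩ := h1 hv
  exact ⟨u, hu, rfl⟩

/-- a vector fixed by the idempotent has value zero at the symbol function -/
theorem val_zero (hMAIN : S_MAINL) {ι : Type} (A : ι → ℕ → Set ℤ) (i : ι)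
    (y : ℤ → ℤ) (x : ℕ → ℤ) (R : ℕ → ℕ) (hAi : A i = fun j => Ret y (R j)) (hR : Rad y x R)
    (hy : AlphP y) (h : ℕ → ℕ) (b : ℕ → ℤ → ℤ) (hDec : Dec h b) (hp : ParseP h b y)
    (q : Ultrafilter ℕ) (hq : ∀ r : Ultrafilter ℕ, ∃ s : Ultrafilter ℕ, s + (r + q) = q)
    (hqq : q + q = q) (hx : Lim q x x) (hxc : ∃ i, x (i + 1) ≠ x i)
    (hg0 : Adm (A i) 0 (fun n => (y n : ℝ)))
    (w : XX A) (hur : URVec (X := XX A) (TX A) w) (hfix : Fixes (X := XX A) (TX A) w q) :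
    (w : EE ι) ⟨i, 0, fun n => (y n : ℝ)⟩ = 0 := by
  have hAn : Antitone (A i) := by rw [hAi]; exact hR.anti
  obtain ⟨B, hB⟩ := orbit_bounded (X := XX A) hur
  have k1 := linF A (i := i) hAn w.2
  have k2 : OrbB (A i) (LL A i (w : EE ι)) B := orbB A (i := i) w.2 (fun n => by
    have h1 := hB n
    have h2 : ‖(TX A ^ n) w‖ = ‖(((TX A ^ n) w : XX A) : EE ι)‖ := rfl
    rw [h2, TX_pow_coe] at h1
    exact h1)
  have k3 := tailF A (i := i) w.2
  have k4 : RecF (A i) q (LL A i (w : EE ι)) := recF A (i := i) w.2 (by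
    unfold Fixes at hfix
    have h2 := (continuous_subtype_val.tendsto w).comp hfix
    refine h2.congr fun n => ?_
    rw [Function.comp_apply, TX_pow_coe])
  have k5 : URF (A i) (LL A i (w : EE ι)) := urF A (i := i) w.2 (fun ε hε => by
    obtain ⟨N, hN⟩ := URVec.eps (X := XX A) hur ε hε
    refine ⟨N, fun m => ?_⟩
    obtain ⟨n, h1, h2, h3⟩ := hN m
    refine ⟨n, h1, h2, ?_⟩
    rw [norm_TX] at h3
    exact h3)
  have h5 := LL_adm A (i := i) w.2 hg0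
  rw [pow_zero, one_mul] at h5
  rw [← h5]
  rw [hAi] at k1 k2 k3 k4 k5
  exact hMAIN y x R hR hy h b hDec hp q hq hqq hx hxc _ B k1 k2 k3 k4 k5

/-- the construction, for an abstract index type of the points of the subshift -/
theorem core (hUL : S_ULTRA) (hSEL : S_SEL) (hDENS : S_DENS) (hLIMQ : S_LIMQ) (hMAIN : S_MAINL)
    (Y : ℤ → ℤ) (h : ℕ → ℕ) (b : ℕ → ℤ → ℤ) (hYal : AlphP Y) (hYap : AperP Y) (hDec : Dec h b)
    (C : Type) (pt : C → ℕ → ℤ) (hpt : ∀ x, InP Y x → ∃ c, pt c = x)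
    (y : C → ℤ → ℤ) (R : C → ℕ → ℕ) (hy0 : ∀ c, y c 0 = 1) (hyal : ∀ c, AlphP (y c))
    (hymin : ∀ c, MinP (y c)) (hyp : ∀ c, ParseP h b (y c)) (hyR : ∀ c, Rad (y c) (pt c) (R c))
    (A : C × Kap C → ℕ → Set ℤ) (hAdef : ∀ p, A p = fun i => Ret (y p.1) (R p.1 i))
    (hg0 : ∀ i : C × Kap C, Adm (A i) 0 (fun n => (y i.1 n : ℝ))) :
    Dense {x : XX A | URVec (X := XX A) (TX A) x} ∧
      ¬ ∃ M : Submodule ℝ (XX A), Dense (M : Set (XX A)) ∧
        ∀ x ∈ M, URVec (X := XX A) (TX A) x := by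
  have hA : ∀ i, Antitone (A i) := fun i => by rw [hAdef]; exact (hyR i.1).anti
  have hsynd : ∀ i : C × Kap C, ∀ K : ℕ, ∃ N : ℕ, ∀ m : ℕ, ∃ n : ℕ,
      m ≤ n ∧ n ≤ m + N ∧ 1 ≤ n ∧ (n : ℤ) ∈ A i K := by
    intro i K
    obtain ⟨g, hg⟩ := hymin i.1 (R i.1 K)
    refine ⟨g + 1, fun m => ?_⟩
    obtain ⟨s, hs, hs2⟩ := hg 0 (m + 1)
    refine ⟨m + 1 + s, by omega, by omega, by omega, ?_⟩
    rw [hAdef]
    intro j hj
    have := hs2 j hj
    rw [zero_add] at this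
    push_cast
    exact this
  refine ⟨dense_ur hDENS A hA hsynd, ?_⟩
  rintro ⟨M, hM, hMur⟩
  -- selection
  have hsel : ∀ (c : C) (α : Kap C), ∃ v ∈ M.map (XX A).subtype,
      (3 / 4 : ℝ) ≤ v ⟨(c, α), 0, fun n => (y c n : ℝ)⟩ ∧
      (∀ β : Kap C, β ≠ α → |v ⟨(c, β), 0, fun n => (y c n : ℝ)⟩| ≤ 1 / 4) ∧
      {i : C × Kap C | ∃ k g, v ⟨i, k, g⟩ ≠ 0}.Countable := by
    intro c α
    obtain ⟨v, hv, hvd⟩ := Metric.dense_iff.1 hM ⟨gen A (c, α) 0, gen_mem A (c, α) 0⟩ (1 / 4)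
      (by norm_num)
    rw [Metric.mem_ball, Subtype.dist_eq, dist_eq_norm] at hv
    refine ⟨(v : EE (C × Kap C)), ⟨v, hvd, rfl⟩, ?_, ?_, countable_supp A v.2⟩
    · have h1 := ((v : EE (C × Kap C)) - gen A (c, α) 0).norm_coe_le_norm
        ⟨(c, α), 0, fun n => (y c n : ℝ)⟩
      rw [BoundedContinuousFunction.sub_apply, Real.norm_eq_abs, gen_apply] at h1
      have h2 : genFun A (c, α) 0 ⟨(c, α), 0, fun n => (y c n : ℝ)⟩ = 1 := by
        unfold genFun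
        rw [if_pos ⟨rfl, hg0 (c, α)⟩]
        simp [hy0 c]
      rw [h2] at h1
      have h3 := (abs_le.1 (h1.trans hv.le)).1
      linarith
    · intro β hβ
      have h1 := ((v : EE (C × Kap C)) - gen A (c, α) 0).norm_coe_le_norm
        ⟨(c, β), 0, fun n => (y c n : ℝ)⟩
      rw [BoundedContinuousFunction.sub_apply, Real.norm_eq_abs, gen_apply] at h1
      have h2 : genFun A (c, α) 0 ⟨(c, β), 0, fun n => (y c n : ℝ)⟩ = 0 := by
        unfold genFun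
        rw [if_neg]
        rintro ⟨h3, _⟩
        exact hβ (Prod.ext_iff.1 h3).2
      rw [h2, sub_zero] at h1
      exact h1.trans hv.le
  obtain ⟨d, hdD, hdne, hdd⟩ := hSEL C (M.map (XX A).subtype) (fun c n => (y c n : ℝ)) hsel
  -- every element of the image is a uniformly recurrent vector
  have hdX : ∀ c, d c ∈ XX A := by
    intro c
    obtain ⟨u, _, hu⟩ := hdD c
    rw [← hu]
    exact u.2
  obtain ⟨dX, hdXd⟩ : ∃ dX : C → XX A, ∀ c, (dX c : EE (C × Kap C)) = d c :=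
    ⟨fun c => ⟨d c, hdX c⟩, fun c => rfl⟩
  have hdM : ∀ c, dX c ∈ M := by
    intro c
    obtain ⟨u, hu1, hu2⟩ := hdD c
    have : dX c = u := Subtype.ext ((hdXd c).trans hu2.symm)
    rw [this]
    exact hu1
  have hdd' : ∀ c c' : C, c ≠ c' → ∀ i : C × Kap C,
      (∀ k g, (dX c : EE (C × Kap C)) ⟨i, k, g⟩ = 0) ∨
        (∀ k g, (dX c' : EE (C × Kap C)) ⟨i, k, g⟩ = 0) := by
    intro c c' hcc i
    rw [hdXd, hdXd]
    exact hdd c c' hcc i
  obtain ⟨L, hL1, hL2, hL3, hL4⟩ := hUL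
  obtain ⟨q, hqL, hqq, hqfix⟩ := common_idem A dX hdd'
    (fun F => hMur _ (M.sum_mem fun c (_ : c ∈ F) => hdM c)) L hL1 hL2 hL3
  obtain ⟨x, hx1, hx2, _⟩ := hLIMQ q hqq (fun n : ℕ => Y n) (fun n => hYal n)
  have hxin : InP Y x := by
    intro l
    have h1 : ∀ᶠ n in (q : Filter ℕ), ∀ i ∈ Finset.range l, Y ((n + i : ℕ) : ℤ) = x i := by
      rw [Filter.eventually_all_finset]
      intro i _
      exact hx1 i
    obtain ⟨n, hn⟩ := h1.exists
    refine ⟨n, fun i hi => ?_⟩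
    rw [← hn i (Finset.mem_range.2 hi)]
    push_cast
    rfl
  obtain ⟨c, hc⟩ := hpt x hxin
  obtain ⟨α, hα⟩ := hdne c
  apply hα
  rw [← hdXd]
  have hR' : Rad (y c) x (R c) := by
    have h1 := hyR c
    rw [hc] at h1
    exact h1
  have hq' : ∀ r : Ultrafilter ℕ, ∃ s : Ultrafilter ℕ, s + (r + q) = q :=
    fun r => hL4 (r + q) (hL3 r q hqL) q hqL
  have hA' : A (c, α) = fun j => Ret (y c) (R c j) := hAdef (c, α)
  have hg' : Adm (A (c, α)) 0 (fun n => (y c n : ℝ)) := hg0 (c, α)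
  exact val_zero hMAIN A (c, α) (y c) x (R c) hA' hR' (hyal c) h b hDec
    (hyp c) q hq' hqq hx2 (not_const hYap hxin) hg' (dX c) (hMur _ (hdM c)) (hqfix c)

theorem pack {ι : Type} (A : ι → ℕ → Set ℤ)
    (key : Dense {x : XX A | URVec (X := XX A) (TX A) x} ∧
      ¬ ∃ M : Submodule ℝ (XX A), Dense (M : Set (XX A)) ∧
        ∀ x ∈ M, URVec (X := XX A) (TX A) x) :
    ∃ (X : Type) (_ : NormedAddCommGroup X) (_ : NormedSpace ℝ X) (_ : CompleteSpace X)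
      (T : X →L[ℝ] X), Dense {x : X | URVec T x} ∧
      ¬ ∃ M : Submodule ℝ X, Dense (M : Set X) ∧ ∀ x ∈ M, URVec T x :=
  ⟨XX A, inferInstance, inferInstance, inferInstance, TX A, key⟩

theorem final (hUL : S_ULTRA) (hPAR : S_PAR) (hBASIC : S_BASIC) (hCOR : S_COR) (hYB : S_YB)
    (hBPY : S_BPY) (hMIN : S_MIN) (hAPER : S_APER) (hMEET : S_MEET) (hTRANS : S_TRANS)
    (hPICK : S_PICK) (hRAD : S_RAD) (hADM : S_ADM) (hSEL : S_SEL) (hDENS : S_DENS)
    (hLIMQ : S_LIMQ) (hMAIN : S_MAINL) :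
    ∃ (X : Type) (_ : NormedAddCommGroup X) (_ : NormedSpace ℝ X) (_ : CompleteSpace X)
      (T : X →L[ℝ] X), Dense {x : X | URVec T x} ∧
      ¬ ∃ M : Submodule ℝ X, Dense (M : Set X) ∧ ∀ x ∈ M, URVec T x := by
  obtain ⟨Y, h, b, hY0, hYal, hYmin, hYap, hYmeet, hDec, hBP⟩ :=
    sys hPAR hBASIC hCOR hYB hBPY hMIN hAPER hMEET
  have hpick : ∀ c : {x : ℕ → ℤ // InP Y x}, ∃ y : ℤ → ℤ, ∃ R : ℕ → ℕ, y 0 = 1 ∧ AlphP y ∧
      MinP y ∧ ParseP h b y ∧ Rad y c.1 R := by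
    intro c
    obtain ⟨y, h1, h2, h3⟩ := hPICK Y hY0 hYmeet c.1 c.2
    obtain ⟨h4, h5, h6, h7⟩ := hTRANS Y y h2
    obtain ⟨R, hR⟩ := hRAD y c.1 (h6 hYap) h3
    exact ⟨y, R, h1, h4 hYal, h5 hYmin, h7 h b hBP hDec.supp, hR⟩
  choose y R hy0 hyal hymin hyp hyR using hpick
  have hg : ∀ i : {x : ℕ → ℤ // InP Y x} × Kap {x : ℕ → ℤ // InP Y x},
      Adm (fun j => Ret (y i.1) (R i.1 j)) 0 (fun n => (y i.1 n : ℝ)) := by
    intro i
    refine hADM (y i.1) i.1.1 (R i.1) (hyR i.1) 0 _ ⟨fun n => ?_, fun n n' hn => ?_⟩ 0 le_rfl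
    · rcases hyal i.1 n with h | h | h <;> simp [h]
    · have := hn 0 (by simp)
      simp only [add_zero] at this
      simp only [this]
  exact pack _ (core hUL hSEL hDENS hLIMQ hMAIN Y h b hYal hYap hDec {x : ℕ → ℤ // InP Y x}
    (fun c => c.1) (fun x hx => ⟨⟨x, hx⟩, rfl⟩) y R hy0 hyal hymin hyp hyR
    (fun p i => Ret (y p.1) (R p.1 i)) (fun p => rfl) hg)

end Pool.Agent.W717.UR
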