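import Pool.Agent.W717.UR.Stm

set_option autoImplicit false

namespace Pool.Agent.W717.UR

open Filter Topology

attribute [local instance] Ultrafilter.addSemigroup

theorem mainL (hTV : S_TV) (hSM : S_SM) (hLOW : S_LOW) (hNA : S_NA) (hQST : S_QST)
    (hATM : S_ATM) (hPROX : S_PROX) (hLIMQ : S_LIMQ) : S_MAINL := by
  intro y x R hR hy h b hd hp q hq hqq hx hxc L B hL hB hT hRec hUR
  have hV : TVB y L (2 * B) := hTV y x R hR L B hL hB
  by_cases hA : NoAtom y L
  · exact hLOW y x R hR hy L h hd.mono hUR (hSM y x R hR hy L (2 * B) hL hV hA h b hd hp)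
  · exfalso
    obtain ⟨a, z, ha, hz, hm⟩ := hNA y x R hR hy L hL hA
    obtain ⟨z', h1, h2, _⟩ := hLIMQ q hqq z hz
    have hm' : Mass y L z' a := hQST y x R hR L (2 * B) q z z' a hL hV hRec h1 hm
    have hmeet := hATM y x R hR L (2 * B) z' a hL hV hT ha hm'
    have e1 : z' = x := hPROX q hq z' x h2 hx fun j => (hmeet j).1
    have h3 : Lim q (fun n => z' (n + 1)) (fun n => z' (n + 1)) := by
      intro i
      filter_upwards [h2 (i + 1)] with n hn
      rw [← hn]
      rfl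
    have e2 : (fun n => z' (n + 1)) = x := hPROX q hq _ x h3 hx fun j => by
      obtain ⟨n, hn⟩ := (hmeet j).2
      refine ⟨n, fun i hi => ?_⟩
      rw [← hn i hi]
      show z' (n + i + 1) = z' (n + 1 + i)
      congr 1
      ring
    obtain ⟨i, hi⟩ := hxc
    apply hi
    have e3 := congrFun e2 i
    have e4 := congrFun e1 (i + 1)
    rw [← e3, ← e4]

theorem par (hS : S_SIGN) : S_PAR := by
  have h1 : ∀ k : ℕ, ∃ N : ℕ, 200 * (k + 3) * 2 ^ k ≤ N ∧ ∃ e : ℕ → ℤ,
      (∀ q, e q = 1 ∨ e q = -1) ∧ (∀ q, q ≤ k + 3 → e q = 1) ∧ (∃ q, q < N ∧ e q = -1) ∧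
      ∀ d, 1 ≤ d → |((∑ q ∈ Finset.range (N - d), e q * e (q + d) : ℤ) : ℝ)| ≤
        ((1 / 100) * (1 / 2) ^ k) * N := fun k => hS _ (by positivity) (k + 3) _
  choose N hN e he1 he2 he3 he4 using h1
  refine ⟨fun k => k + 3, N, e, ?_⟩
  constructor
  · intro k; exact le_rfl
  · exact he1
  · exact he2
  · exact he3
  · exact he4
  · intro k
    set h := hh (fun k => k + 3) N k with hh'
    have hpos : 1 ≤ h := by
      rw [hh']
      cases k with
      | zero => exact le_rfl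
      | succ k =>
        show 1 ≤ (k + 3) * (hh (fun k => k + 3) N k + 1) + N k * hh (fun k => k + 3) N k
        nlinarith [Nat.zero_le (hh (fun k => k + 3) N k), Nat.zero_le (N k * hh (fun k => k + 3) N k)]
    have h2 : (200 * (k + 3) * 2 ^ k : ℝ) ≤ N k := by exact_mod_cast hN k
    have h3 : (1 : ℝ) ≤ h := by exact_mod_cast hpos
    have h4 : (2 : ℝ) ^ k * (1 / 2) ^ k = 1 := by rw [← mul_pow]; norm_num
    push_cast
    have h5 : (2 * (k + 3) : ℝ) ≤ (1 / 100) * (1 / 2) ^ k * N k := by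
      calc (2 * (k + 3) : ℝ) = (1 / 100) * (200 * (k + 3)) * (2 ^ k * (1 / 2) ^ k) := by
            rw [h4]; ring
        _ = (1 / 100) * (1 / 2) ^ k * (200 * (k + 3) * 2 ^ k) := by ring
        _ ≤ (1 / 100) * (1 / 2) ^ k * N k := by gcongr
    calc ((k : ℝ) + 3) * (h + 1) ≤ (k + 3) * (2 * h) := by gcongr; linarith
      _ = (2 * (k + 3)) * h := by ring
      _ ≤ (1 / 100) * (1 / 2) ^ k * N k * h := by gcongr

end Pool.Agent.W717.UR
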