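import Pool.Agent.W717.UR.Defs

set_option autoImplicit false

namespace Pool.Agent.W717.UR

open Filter Topology

attribute [local instance] Ultrafilter.addSemigroup

/-- a minimal closed left ideal of `βℕ` -/
def S_ULTRA : Prop := ∃ L : Set (Ultrafilter ℕ), IsClosed L ∧ L.Nonempty ∧
  (∀ p, ∀ s ∈ L, p + s ∈ L) ∧ ∀ s ∈ L, ∀ t ∈ L, ∃ p, p + s = t

/-- proximal points fixed by the same minimal idempotent are equal -/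
def S_PROX : Prop := ∀ q : Ultrafilter ℕ, (∀ r : Ultrafilter ℕ, ∃ s : Ultrafilter ℕ, s + (r + q) = q) →
  ∀ z x : ℕ → ℤ, Lim q z z → Lim q x x →
    (∀ j : ℕ, ∃ n : ℕ, ∀ i : ℕ, i < j → z (n + i) = x (n + i)) → z = x

/-- limits along an idempotent are fixed -/
def S_LIMQ : Prop := ∀ q : Ultrafilter ℕ, q + q = q →
  ∀ z : ℕ → ℤ, (∀ n, z n = -1 ∨ z n = 0 ∨ z n = 1) →
    ∃ z' : ℕ → ℤ, Lim q z z' ∧ Lim q z' z' ∧ ∀ n, z' n = -1 ∨ z' n = 0 ∨ z' n = 1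

/-- sign patterns with small aperiodic autocorrelations -/
def S_SIGN : Prop := ∀ δ : ℝ, 0 < δ → ∀ G N0 : ℕ, ∃ N : ℕ, N0 ≤ N ∧ ∃ e : ℕ → ℤ,
  (∀ q, e q = 1 ∨ e q = -1) ∧ (∀ q, q ≤ G → e q = 1) ∧ (∃ q, q < N ∧ e q = -1) ∧
  ∀ d, 1 ≤ d → |((∑ q ∈ Finset.range (N - d), e q * e (q + d) : ℤ) : ℝ)| ≤ δ * N

def S_PAR : Prop := ∃ (G N : ℕ → ℕ) (e : ℕ → ℕ → ℤ), Par G N e

/-- elementary facts on the blocks -/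
def S_BASIC : Prop := ∀ (G N : ℕ → ℕ) (e : ℕ → ℕ → ℤ), Par G N e →
  (∀ k, k ≤ aa G N k ∧ aa G N k + k < hh G N k ∧ hh G N k < hh G N (k + 1)) ∧
  (∀ k i, bb G N e k i = -1 ∨ bb G N e k i = 0 ∨ bb G N e k i = 1) ∧
  (∀ k i, (i < 0 ∨ (hh G N k : ℤ) ≤ i) → bb G N e k i = 0)

/-- small autocorrelations of the blocks -/
def S_COR : Prop := ∀ (G N : ℕ → ℕ) (e : ℕ → ℕ → ℤ), Par G N e →
  ∀ (j k : ℕ) (r : ℤ), (hh G N j : ℤ) ≤ |r| →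
    |((∑ i ∈ Finset.range (hh G N k), bb G N e k i * bb G N e k (i + r) : ℤ) : ℝ)| ≤
      (6 / 100) * (1 / 2) ^ j * hh G N k

/-- most entries of the blocks are nonzero -/
def S_ENG : Prop := ∀ (G N : ℕ → ℕ) (e : ℕ → ℕ → ℤ), Par G N e →
  ∀ k : ℕ, (9 / 10 : ℝ) * hh G N k ≤
    ((∑ i ∈ Finset.range (hh G N k), bb G N e k i * bb G N e k i : ℤ) : ℝ)

/-- the two-sided sequence contains all blocks -/
def S_YB : Prop := ∀ (G N : ℕ → ℕ) (e : ℕ → ℕ → ℤ), Par G N e →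
  ∀ (k : ℕ) (i : ℤ), 0 ≤ i → i < hh G N k → YY G N e (i - aa G N k) = bb G N e k i

/-- block structure of level `k + 1` gives block structure of level `k` -/
def S_DESC : Prop := ∀ (G N : ℕ → ℕ) (e : ℕ → ℕ → ℤ), Par G N e →
  ∀ (y : ℤ → ℤ) (k : ℕ) (n : ℤ), BP (hh G N) (bb G N e) y (k + 1) n →
    BP (hh G N) (bb G N e) y k n

def S_BPY : Prop := ∀ (G N : ℕ → ℕ) (e : ℕ → ℕ → ℤ), Par G N e →
  ∀ (k : ℕ) (n : ℤ), BP (hh G N) (bb G N e) (YY G N e) k n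

def S_MIN : Prop := ∀ (G N : ℕ → ℕ) (e : ℕ → ℕ → ℤ), Par G N e → MinP (YY G N e)

def S_APER : Prop := ∀ (G N : ℕ → ℕ) (e : ℕ → ℕ → ℤ), Par G N e → AperP (YY G N e)

def S_MEET : Prop := ∀ (G N : ℕ → ℕ) (e : ℕ → ℕ → ℤ), Par G N e → MeetP (YY G N e)

/-- transfer of the properties of `Y` to the elements of its subshift -/
def S_TRANS : Prop := ∀ Y y : ℤ → ℤ, In2P Y y →
  (AlphP Y → AlphP y) ∧ (MinP Y → MinP y) ∧ (AperP Y → AperP y) ∧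
  ∀ (h : ℕ → ℕ) (b : ℕ → ℤ → ℤ), (∀ k n, BP h b Y k n) →
    (∀ k i, (i < 0 ∨ (h k : ℤ) ≤ i) → b k i = 0) → ParseP h b y

/-- existence of an element of the subshift all of whose shifts meet `x` -/
def S_PICK : Prop := ∀ Y : ℤ → ℤ, Y 0 = 1 → MeetP Y → ∀ x : ℕ → ℤ, InP Y x →
  ∃ y : ℤ → ℤ, y 0 = 1 ∧ In2P Y y ∧ MeetsP y x

/-- existence of the radii -/
def S_RAD : Prop := ∀ (y : ℤ → ℤ) (x : ℕ → ℤ), AperP y → MeetsP y x → ∃ R : ℕ → ℕ, Rad y x R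

/-- cylinder functions are admissible -/
def S_ADM : Prop := ∀ (y : ℤ → ℤ) (x : ℕ → ℤ) (R : ℕ → ℕ), Rad y x R →
  ∀ (l : ℕ) (g : ℤ → ℝ), Cyl y l g → ∀ k : ℕ, l ≤ k → Adm (fun i => Ret y (R i)) k g

/-- bounded orbits have bounded total variation -/
def S_TV : Prop := ∀ (y : ℤ → ℤ) (x : ℕ → ℤ) (R : ℕ → ℕ), Rad y x R →
  ∀ (L : (ℤ → ℝ) → ℝ) (B : ℝ), LinF (fun i => Ret y (R i)) L →
    OrbB (fun i => Ret y (R i)) L B → TVB y L (2 * B)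

/-- algebraic part of the second moment bound -/
def S_SMA : Prop := ∀ (h H : ℕ) (b : ℤ → ℤ) (ε M V : ℝ) (T : Finset ℤ) (α : ℤ → ℝ),
  (∀ i, |b i| ≤ 1) → (∀ i, (i < 0 ∨ (h : ℤ) ≤ i) → b i = 0) → 0 ≤ ε → 0 ≤ M →
  (∀ r : ℤ, (H : ℤ) ≤ |r| → |((∑ i ∈ Finset.range h, b i * b (i + r) : ℤ) : ℝ)| ≤ ε * h) →
  (∀ t ∈ T, |α t| ≤ M) → ∑ t ∈ T, |α t| ≤ V →
  ∑ n ∈ Finset.range h, (∑ t ∈ T, α t * (b (n - t) : ℝ)) ^ 2 ≤ h * (2 * H * M * V + ε * V ^ 2)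

/-- the second moment tends to zero when there are no atoms -/
def S_SM : Prop := ∀ (y : ℤ → ℤ) (x : ℕ → ℤ) (R : ℕ → ℕ), Rad y x R → AlphP y →
  ∀ (L : (ℤ → ℝ) → ℝ) (V : ℝ), LinF (fun i => Ret y (R i)) L → TVB y L V → NoAtom y L →
  ∀ (h : ℕ → ℕ) (b : ℕ → ℤ → ℤ), Dec h b → ParseP h b y →
  ∀ ε : ℝ, 0 < ε → ∃ K0 : ℕ, ∀ K : ℕ, K0 ≤ K →
    ∑ n ∈ Finset.range (h K), (L (fun m => (y (m + n) : ℝ))) ^ 2 ≤ ε * h K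

/-- small second moments and uniform recurrence give the value zero -/
def S_LOW : Prop := ∀ (y : ℤ → ℤ) (x : ℕ → ℤ) (R : ℕ → ℕ), Rad y x R → AlphP y →
  ∀ (L : (ℤ → ℝ) → ℝ) (h : ℕ → ℕ), StrictMono h → URF (fun i => Ret y (R i)) L →
  (∀ ε : ℝ, 0 < ε → ∃ K0 : ℕ, ∀ K : ℕ, K0 ≤ K →
    ∑ n ∈ Finset.range (h K), (L (fun m => (y (m + n) : ℝ))) ^ 2 ≤ ε * h K) →
  L (fun m => (y m : ℝ)) = 0

/-- atoms exist if `NoAtom` fails -/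
def S_NA : Prop := ∀ (y : ℤ → ℤ) (x : ℕ → ℤ) (R : ℕ → ℕ), Rad y x R → AlphP y →
  ∀ (L : (ℤ → ℝ) → ℝ), LinF (fun i => Ret y (R i)) L → ¬ NoAtom y L →
  ∃ (a : ℝ) (z : ℕ → ℤ), 0 < a ∧ (∀ n, z n = -1 ∨ z n = 0 ∨ z n = 1) ∧ Mass y L z a

/-- atoms are mapped to atoms -/
def S_QST : Prop := ∀ (y : ℤ → ℤ) (x : ℕ → ℤ) (R : ℕ → ℕ), Rad y x R →
  ∀ (L : (ℤ → ℝ) → ℝ) (V : ℝ) (q : Ultrafilter ℕ) (z z' : ℕ → ℤ) (a : ℝ),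
  LinF (fun i => Ret y (R i)) L → TVB y L V → RecF (fun i => Ret y (R i)) q L →
  Lim q z z' → Mass y L z a → Mass y L z' a

/-- atoms meet `x` -/
def S_ATM : Prop := ∀ (y : ℤ → ℤ) (x : ℕ → ℤ) (R : ℕ → ℕ), Rad y x R →
  ∀ (L : (ℤ → ℝ) → ℝ) (V : ℝ) (z : ℕ → ℤ) (a : ℝ),
  LinF (fun i => Ret y (R i)) L → TVB y L V → TailF (fun i => Ret y (R i)) L →
  0 < a → Mass y L z a → ∀ j : ℕ,
    (∃ n : ℕ, ∀ i : ℕ, i < j → z (n + i) = x (n + i)) ∧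
    (∃ n : ℕ, ∀ i : ℕ, i < j → z (n + 1 + i) = x (n + i))

/-- selection of vectors with pairwise disjoint supports -/
def S_SEL : Prop := ∀ (C : Type) (D : Submodule ℝ (EE (C × Kap C))) (g0 : C → ℤ → ℝ),
  (∀ (c : C) (α : Kap C), ∃ v ∈ D, (3 / 4 : ℝ) ≤ v ⟨(c, α), 0, g0 c⟩ ∧
    (∀ β : Kap C, β ≠ α → |v ⟨(c, β), 0, g0 c⟩| ≤ 1 / 4) ∧
    {i : C × Kap C | ∃ k g, v ⟨i, k, g⟩ ≠ 0}.Countable) →
  ∃ d : C → EE (C × Kap C), (∀ c, d c ∈ D) ∧ (∀ c, ∃ α : Kap C, d c ⟨(c, α), 0, g0 c⟩ ≠ 0) ∧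
    ∀ c c' : C, c ≠ c' → ∀ i : C × Kap C,
      (∀ k g, d c ⟨i, k, g⟩ = 0) ∨ (∀ k g, d c' ⟨i, k, g⟩ = 0)

/-- the closure of the set of uniformly recurrent vectors is a linear subspace -/
def S_DENS : Prop := ∀ (X : Type) [NormedAddCommGroup X] [NormedSpace ℝ X] [CompleteSpace X]
  (T : X →L[ℝ] X), Dense (Submodule.span ℝ {x : X | URVec T x} : Set X) → Dense {x : X | URVec T x}

/-- the main result on functionals -/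
def S_MAINL : Prop := ∀ (y : ℤ → ℤ) (x : ℕ → ℤ) (R : ℕ → ℕ), Rad y x R → AlphP y →
  ∀ (h : ℕ → ℕ) (b : ℕ → ℤ → ℤ), Dec h b → ParseP h b y →
  ∀ (q : Ultrafilter ℕ), (∀ r : Ultrafilter ℕ, ∃ s : Ultrafilter ℕ, s + (r + q) = q) → q + q = q →
  Lim q x x → (∃ i, x (i + 1) ≠ x i) →
  ∀ (L : (ℤ → ℝ) → ℝ) (B : ℝ), LinF (fun i => Ret y (R i)) L → OrbB (fun i => Ret y (R i)) L B →
  TailF (fun i => Ret y (R i)) L → RecF (fun i => Ret y (R i)) q L →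
  URF (fun i => Ret y (R i)) L → L (fun m => (y m : ℝ)) = 0

end Pool.Agent.W717.UR
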